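import Mathlib

set_option autoImplicit false

/-!
Counting lemmas for the linear forms `x Y + y Y'` on a set `Y = 33 u + v`, `u < n`, `v ∈ A`,
where `A ⊆ ℤ/33` is invariant under multiplication by `-2`.
-/

namespace Pool.Agent.N766.FD

/-- the set `A` of residues modulo `33`; it satisfies `-2·A = A` -/
def A : Finset (ZMod 33) := {0, 2, 3, 8, 9, 12, 15, 17, 27, 29, 32}

/-- the elements of `A` -/
abbrev V := {x : ZMod 33 // x ∈ A}

/-- index type of the set of the integers `33 u + v` -/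
abbrev B (n : ℕ) := Fin n × V

/-- the integer `33 u + v` -/
def yv {n : ℕ} (b : B n) : ℤ := 33 * ((b.1 : ℕ) : ℤ) + ((ZMod.val b.2.1 : ℕ) : ℤ)

/-- the linear form -/
def h (x y : ℤ) {n : ℕ} (b : B n × B n) : ℤ := x * yv b.1 + y * yv b.2

/-- number of solutions modulo 33 -/
def k (x y : ZMod 33) (w : ZMod 33) : ℕ :=
  (Finset.univ.filter (fun s : V × V => x * s.1.1 + y * s.2.1 = w)).card

/-- size of the fibre -/
def cnt (x y : ℤ) (n : ℕ) (w : ℤ) : ℕ :=
  (Finset.univ.filter (fun b : B n × B n => h x y b = w)).card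

lemma card_V : Fintype.card V = 11 := by decide

lemma yv_cast {n : ℕ} (b : B n) : ((yv b : ℤ) : ZMod 33) = b.2.1 := by
  unfold yv
  push_cast
  have : (33 : ZMod 33) = 0 := by decide
  rw [this, zero_mul, zero_add]
  exact ZMod.natCast_zmod_val _

lemma yv_nonneg {n : ℕ} (b : B n) : 0 ≤ yv b := by
  unfold yv; positivity

lemma yv_lt {n : ℕ} (b : B n) : yv b ≤ 33 * n - 1 := by
  unfold yv
  have h1 := b.1.2
  have h2 := ZMod.val_lt b.2.1
  omega

lemma yv_inj {n : ℕ} (b c : B n) (hbc : yv b = yv c) : b = c := by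
  unfold yv at hbc
  have h2 := ZMod.val_lt b.2.1
  have h3 := ZMod.val_lt c.2.1
  have h4 : (b.1 : ℕ) = (c.1 : ℕ) := by omega
  have h5 : ZMod.val b.2.1 = ZMod.val c.2.1 := by omega
  have h6 : b.2.1 = c.2.1 := ZMod.val_injective _ h5
  exact Prod.ext (Fin.ext h4) (Subtype.ext h6)

lemma h_cast (x y : ℤ) {n : ℕ} (b : B n × B n) :
    ((h x y b : ℤ) : ZMod 33) = (x : ZMod 33) * b.1.2.1 + (y : ZMod 33) * b.2.2.1 := by
  unfold h
  push_cast
  rw [yv_cast, yv_cast]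

/-! ### Upper bound for the fibres -/

lemma cnt_le (a e : ℕ) (n : ℕ) (w : ℤ) :
    cnt ((-2) ^ a) ((-2) ^ (a + e)) n w ≤
      k (((-2) ^ a : ℤ) : ZMod 33) (((-2) ^ (a + e) : ℤ) : ZMod 33) (w : ZMod 33) *
        (n / 2 ^ e + 1) := by
  unfold cnt k
  rw [← Finset.card_range (n / 2 ^ e + 1), ← Finset.card_product]
  refine Finset.card_le_card_of_injOn
    (fun b => ((b.1.2, b.2.2), (b.1.1 : ℕ) / 2 ^ e)) ?_ ?_
  · intro b hb
    have hb' : h ((-2) ^ a) ((-2) ^ (a + e)) b = w := by simpa using hb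
    have h1 := h_cast ((-2) ^ a) ((-2) ^ (a + e)) b
    rw [hb'] at h1
    simp only [Finset.coe_product, Set.mem_prod, Finset.mem_coe, Finset.mem_filter,
      Finset.mem_univ, true_and, Finset.mem_range]
    refine ⟨h1.symm, ?_⟩
    have := Nat.div_le_div_right (c := 2 ^ e) b.1.1.2.le
    omega
  · intro b hb c hc hbc
    have hb' : h ((-2) ^ a) ((-2) ^ (a + e)) b = w := by simpa using hb
    have hc' : h ((-2) ^ a) ((-2) ^ (a + e)) c = w := by simpa using hc
    simp only [Prod.mk.injEq] at hbc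
    obtain ⟨⟨h1, h2⟩, h3⟩ := hbc
    have h4 : h ((-2) ^ a) ((-2) ^ (a + e)) b = h ((-2) ^ a) ((-2) ^ (a + e)) c := by
      rw [hb', hc']
    unfold h yv at h4
    rw [h1, h2] at h4
    have hp : ((-2 : ℤ) ^ a) ≠ 0 := by positivity
    have h5 : (-2 : ℤ) ^ a * (((b.1.1 : ℕ) : ℤ) - ((c.1.1 : ℕ) : ℤ) +
        (-2) ^ e * (((b.2.1 : ℕ) : ℤ) - ((c.2.1 : ℕ) : ℤ))) = 0 := by
      rw [pow_add] at h4
      linarith
    have h6 : ((b.1.1 : ℕ) : ℤ) - ((c.1.1 : ℕ) : ℤ) =
        -((-2) ^ e * (((b.2.1 : ℕ) : ℤ) - ((c.2.1 : ℕ) : ℤ))) := by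
      rcases mul_eq_zero.1 h5 with h | h
      · exact absurd h hp
      · linarith
    have h7 : ((2 ^ e : ℕ) : ℤ) ∣ ((b.1.1 : ℕ) : ℤ) - ((c.1.1 : ℕ) : ℤ) := by
      rw [h6]
      push_cast
      have : (2 : ℤ) ^ e ∣ (-2) ^ e := by
        rw [neg_pow]
        exact Dvd.intro_left _ rfl
      exact (Dvd.dvd.mul_right this _).neg_right
    have h8 : (b.1.1 : ℕ) = (c.1.1 : ℕ) := by
      have hmod : (b.1.1 : ℕ) % 2 ^ e = (c.1.1 : ℕ) % 2 ^ e := by
        have h9 : ((c.1.1 : ℕ) : ℤ) ≡ ((b.1.1 : ℕ) : ℤ) [ZMOD ((2 ^ e : ℕ) : ℤ)] :=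
          Int.modEq_iff_dvd.2 h7
        have h10 : (c.1.1 : ℕ) ≡ (b.1.1 : ℕ) [MOD 2 ^ e] := (Int.natCast_modEq_iff).1 h9
        exact h10.symm
      have e1 := Nat.div_add_mod (b.1.1 : ℕ) (2 ^ e)
      have e2 := Nat.div_add_mod (c.1.1 : ℕ) (2 ^ e)
      rw [← e1, ← e2, h3, hmod]
    have h9 : (b.2.1 : ℕ) = (c.2.1 : ℕ) := by
      rw [h8, sub_self] at h6
      have h10 : (-2 : ℤ) ^ e * (((b.2.1 : ℕ) : ℤ) - ((c.2.1 : ℕ) : ℤ)) = 0 := by linarith
      rcases mul_eq_zero.1 h10 with h | h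
      · exact absurd h (by positivity)
      · omega
    exact Prod.ext (Prod.ext (Fin.ext h8) h1) (Prod.ext (Fin.ext h9) h2)

lemma k_swap (x y w : ZMod 33) : k x y w = k y x w := by
  unfold k
  refine Finset.card_nbij' Prod.swap Prod.swap ?_ ?_ ?_ ?_
  · intro s hs
    simp only [Finset.coe_filter, Finset.mem_univ, true_and, Set.mem_ofPred_eq, Prod.fst_swap,
      Prod.snd_swap] at hs ⊢
    rw [← hs]; ring
  · intro s hs
    simp only [Finset.coe_filter, Finset.mem_univ, true_and, Set.mem_ofPred_eq, Prod.fst_swap,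
      Prod.snd_swap] at hs ⊢
    rw [← hs]; ring
  · intro s _; rfl
  · intro s _; rfl

lemma cnt_swap (x y : ℤ) (n : ℕ) (w : ℤ) : cnt x y n w = cnt y x n w := by
  unfold cnt
  refine Finset.card_nbij' Prod.swap Prod.swap ?_ ?_ ?_ ?_
  · intro s hs
    simp only [Finset.coe_filter, Finset.mem_univ, true_and, Set.mem_ofPred_eq, h, Prod.fst_swap,
      Prod.snd_swap] at hs ⊢
    rw [← hs]; ring
  · intro s hs
    simp only [Finset.coe_filter, Finset.mem_univ, true_and, Set.mem_ofPred_eq, h, Prod.fst_swap,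
      Prod.snd_swap] at hs ⊢
    rw [← hs]; ring
  · intro s _; rfl
  · intro s _; rfl

/-! ### Image count -/

lemma form_bounds (x y Z : ℤ) (hZ : 0 ≤ Z) (Y Y' : ℤ) (h0 : 0 ≤ Y) (h1 : Y ≤ Z) (h0' : 0 ≤ Y')
    (h1' : Y' ≤ Z) :
    Z * (min x 0 + min y 0) ≤ x * Y + y * Y' ∧
      x * Y + y * Y' ≤ Z * (min x 0 + min y 0) + (|x| + |y|) * Z := by
  have hx : Z * min x 0 ≤ x * Y ∧ x * Y ≤ Z * min x 0 + |x| * Z := by
    rcases le_total 0 x with hx | hx
    · rw [min_eq_right hx, abs_of_nonneg hx]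
      constructor
      · rw [mul_zero]; positivity
      · nlinarith
    · rw [min_eq_left hx, abs_of_nonpos hx]
      constructor
      · nlinarith
      · nlinarith
  have hy : Z * min y 0 ≤ y * Y' ∧ y * Y' ≤ Z * min y 0 + |y| * Z := by
    rcases le_total 0 y with hy | hy
    · rw [min_eq_right hy, abs_of_nonneg hy]
      constructor
      · rw [mul_zero]; positivity
      · nlinarith
    · rw [min_eq_left hy, abs_of_nonpos hy]
      constructor
      · nlinarith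
      · nlinarith
  constructor <;> nlinarith [hx.1, hx.2, hy.1, hy.2]

lemma image_le (μ : ℕ) (x y : ℤ) (K : ℕ) (hK : |x| + |y| = K) (hK1 : 1 ≤ K) (n : ℕ) (hn : 1 ≤ n)
    (ρ : ZMod 33) :
    ((Finset.univ.image (fun b : B n × B n => h ((-2) ^ μ * x) ((-2) ^ μ * y) b)).filter
      (fun z : ℤ => (z : ZMod 33) = ρ)).card ≤ n * K := by
  set Z : ℤ := 33 * n - 1 with hZ
  have hn' : (1 : ℤ) ≤ n := by exact_mod_cast hn
  have hZ0 : 0 ≤ Z := by rw [hZ]; linarith
  set lo : ℤ := Z * (min x 0 + min y 0) with hlo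
  rw [← Finset.card_range (n * K)]
  have hp : ((-2 : ℤ) ^ μ) ≠ 0 := by positivity
  have key : ∀ z ∈ (Finset.univ.image
      (fun b : B n × B n => h ((-2) ^ μ * x) ((-2) ^ μ * y) b)).filter
      (fun z : ℤ => (z : ZMod 33) = ρ), ∃ t : ℤ, z = (-2) ^ μ * t ∧ z / (-2) ^ μ = t ∧
        lo ≤ t ∧ t ≤ lo + K * Z := by
    intro z hz
    obtain ⟨hz1, _⟩ := Finset.mem_filter.1 hz
    obtain ⟨b, _, rfl⟩ := Finset.mem_image.1 hz1
    refine ⟨x * yv b.1 + y * yv b.2, by unfold h; ring, ?_, ?_⟩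
    · have : h ((-2) ^ μ * x) ((-2) ^ μ * y) b = (-2) ^ μ * (x * yv b.1 + y * yv b.2) := by
        unfold h; ring
      rw [this]
      exact Int.mul_ediv_cancel_left _ hp
    · have := form_bounds x y Z hZ0 (yv b.1) (yv b.2) (yv_nonneg _) (yv_lt _) (yv_nonneg _)
        (yv_lt _)
      rw [hK] at this
      exact this
  refine Finset.card_le_card_of_injOn (fun z => ((z / (-2) ^ μ - lo) / 33).toNat) ?_ ?_
  · intro z hz
    obtain ⟨t, _, h2, h3, h4⟩ := key z hz
    simp only [Finset.coe_range, Set.mem_Iio]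
    rw [h2]
    have h5 : (t - lo) / 33 < n * K := by
      rw [Int.ediv_lt_iff_lt_mul (by norm_num)]
      have : (1 : ℤ) ≤ K := by exact_mod_cast hK1
      rw [hZ] at h4
      nlinarith
    have h6 : 0 ≤ (t - lo) / 33 := Int.ediv_nonneg (by linarith) (by norm_num)
    have : ((n * K : ℕ) : ℤ) = (n : ℤ) * K := by push_cast; ring
    omega
  · intro z hz z' hz' hzz
    obtain ⟨t, h1, h2, h3, h4⟩ := key z hz
    obtain ⟨t', h1', h2', h3', h4'⟩ := key z' hz'
    simp only at hzz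
    rw [h2, h2'] at hzz
    have h6 : 0 ≤ (t - lo) / 33 := Int.ediv_nonneg (by linarith) (by norm_num)
    have h6' : 0 ≤ (t' - lo) / 33 := Int.ediv_nonneg (by linarith) (by norm_num)
    have h7 : (t - lo) / 33 = (t' - lo) / 33 := by omega
    have hr : (z : ZMod 33) = (z' : ZMod 33) := by
      rw [(Finset.mem_filter.1 hz).2, (Finset.mem_filter.1 hz').2]
    have h8 : (33 : ℤ) ∣ t - t' := by
      have h9 : ((z - z' : ℤ) : ZMod 33) = 0 := by push_cast; rw [hr, sub_self]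
      have h10 : (33 : ℤ) ∣ z - z' := (ZMod.intCast_zmod_eq_zero_iff_dvd (z - z') 33).1 h9
      rw [h1, h1', ← mul_sub] at h10
      refine IsCoprime.dvd_of_dvd_mul_left ?_ h10
      apply IsCoprime.pow_right
      exact ⟨1, 16, by norm_num⟩
    have h11 : t = t' := by omega
    rw [h1, h1', h11]

end Pool.Agent.N766.FD
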