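import Pool.Agent.N766.FD.Prod

set_option autoImplicit false

namespace Pool.Agent.N766.FD

lemma total_sum (N n r : ℕ) (c0 : ℝ) (G : ℕ → ℕ → B n × B n → ℝ) :
    ∑ x : Om N n (r + 1) × Om N n (r + 1),
      (c0 + ∑ i, G (x.1.1 : ℕ) (x.2.1 : ℕ) (x.1.2 i, x.2.2 i)) =
    ∑ a ∈ Finset.range N, ∑ b ∈ Finset.range N,
      ((Fintype.card (B n × B n) : ℝ) ^ (r + 1) * c0 +
        ((r : ℝ) + 1) * (Fintype.card (B n × B n) : ℝ) ^ r * ∑ w, G a b w) := by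
  have h0 : ∑ x : Om N n (r + 1) × Om N n (r + 1),
      (c0 + ∑ i, G (x.1.1 : ℕ) (x.2.1 : ℕ) (x.1.2 i, x.2.2 i)) =
      ∑ y : (Fin N × Fin N) × (Fin (r + 1) → B n × B n),
        (c0 + ∑ i, G (y.1.1 : ℕ) (y.1.2 : ℕ) (y.2 i)) :=
    Fintype.sum_equiv (eqv N n (r + 1))
      (fun x => c0 + ∑ i, G (x.1.1 : ℕ) (x.2.1 : ℕ) (x.1.2 i, x.2.2 i))
      (fun y => c0 + ∑ i, G (y.1.1 : ℕ) (y.1.2 : ℕ) (y.2 i)) (fun x => rfl)
  rw [h0]
  have h1 : ∑ y : (Fin N × Fin N) × (Fin (r + 1) → B n × B n),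
      (c0 + ∑ i, G (y.1.1 : ℕ) (y.1.2 : ℕ) (y.2 i)) =
      ∑ z : Fin N × Fin N, ∑ w : Fin (r + 1) → B n × B n,
        (c0 + ∑ i, G (z.1 : ℕ) (z.2 : ℕ) (w i)) := Fintype.sum_prod_type _
  rw [h1]
  have h2 : ∀ z : Fin N × Fin N, ∑ w : Fin (r + 1) → B n × B n,
        (c0 + ∑ i, G (z.1 : ℕ) (z.2 : ℕ) (w i)) =
        ((Fintype.card (B n × B n) : ℝ) ^ (r + 1) * c0 +
        ((r : ℝ) + 1) * (Fintype.card (B n × B n) : ℝ) ^ r * ∑ w, G (z.1 : ℕ) (z.2 : ℕ) w) := by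
    intro z
    rw [Finset.sum_add_distrib, sum_pi, Finset.sum_const, Finset.card_univ, Fintype.card_fun,
      Fintype.card_fin, nsmul_eq_mul]
    push_cast
    rfl
  rw [Finset.sum_congr rfl (fun z _ => h2 z)]
  have h3 : ∑ z : Fin N × Fin N, ((Fintype.card (B n × B n) : ℝ) ^ (r + 1) * c0 +
        ((r : ℝ) + 1) * (Fintype.card (B n × B n) : ℝ) ^ r * ∑ w, G (z.1 : ℕ) (z.2 : ℕ) w) =
      ∑ a : Fin N, ∑ b : Fin N, ((Fintype.card (B n × B n) : ℝ) ^ (r + 1) * c0 +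
        ((r : ℝ) + 1) * (Fintype.card (B n × B n) : ℝ) ^ r * ∑ w, G (a : ℕ) (b : ℕ) w) :=
    Fintype.sum_prod_type _
  rw [h3]
  rw [Finset.sum_range (fun a => ∑ b ∈ Finset.range N,
      ((Fintype.card (B n × B n) : ℝ) ^ (r + 1) * c0 +
        ((r : ℝ) + 1) * (Fintype.card (B n × B n) : ℝ) ^ r * ∑ w, G a b w))]
  refine Finset.sum_congr rfl (fun a _ => ?_)
  rw [Finset.sum_range]

theorem exists_S : ∃ S : Finset ℤ, S.Nonempty ∧ LE 1 S < LE 2 S := by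
  obtain ⟨N, n, hn, hG⟩ := gamma_pos
  set Γ : ℝ := ∑ a ∈ Finset.range N, ∑ b ∈ Finset.range N,
      (LL ((-2) ^ a) (2 * (-2) ^ b) n - LL ((-2) ^ a) ((-2) ^ b) n) with hΓ
  have hN : 0 < N := by
    rcases Nat.eq_zero_or_pos N with h0 | h0
    · rw [hΓ, h0] at hG
      simp at hG
    · exact h0
  set M : ℝ := (Fintype.card (B n × B n) : ℝ) with hM
  have hMpos : 0 < M := by
    rw [hM, card_B2]
    have : 0 < n := hn
    positivity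
  obtain ⟨r, hr⟩ := exists_nat_gt ((N : ℝ) * N * M * Real.log 2 / Γ)
  rw [div_lt_iff₀ hG] at hr
  obtain ⟨X, hX, hLE⟩ := exists_set N n (r + 1)
  have hlog2 : 0 < Real.log 2 := Real.log_pos (by norm_num)
  refine ⟨Finset.univ.image X, ?_, ?_⟩
  · have hV : Nonempty V := ⟨⟨0, by decide⟩⟩
    have : Nonempty (Fin N) := ⟨⟨0, hN⟩⟩
    have : Nonempty (Fin n) := ⟨⟨0, hn⟩⟩
    have : Nonempty (Om N n (r + 1)) := inferInstance
    exact Finset.Nonempty.image Finset.univ_nonempty X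
  · rw [hLE 1 (Or.inl rfl), hLE 2 (Or.inr rfl)]
    have h1 : ∑ x : Om N n (r + 1) × Om N n (r + 1), Real.log (RR 1 x.1 x.2) ≤
        ∑ x : Om N n (r + 1) × Om N n (r + 1), (Real.log 2 + ∑ i,
          (fun (a b : ℕ) (w : B n × B n) => Real.log (cnt ((-2) ^ a) ((-2) ^ b) n
            (h ((-2) ^ a) ((-2) ^ b) w))) (x.1.1 : ℕ) (x.2.1 : ℕ) (x.1.2 i, x.2.2 i)) := by
      refine Finset.sum_le_sum (fun x _ => ?_)
      have hpos : (0 : ℝ) < RR 1 x.1 x.2 := by exact_mod_cast RR_pos 1 x.1 x.2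
      have hb : (RR 1 x.1 x.2 : ℝ) ≤ 2 * ∏ i, (cnt ((-2) ^ (x.1.1 : ℕ)) ((-2) ^ (x.2.1 : ℕ)) n
          (h ((-2) ^ (x.1.1 : ℕ)) ((-2) ^ (x.2.1 : ℕ)) (x.1.2 i, x.2.2 i)) : ℝ) := by
        exact_mod_cast RR1_le x.1 x.2
      have hc : ∀ i ∈ (Finset.univ : Finset (Fin (r + 1))),
          (cnt ((-2) ^ (x.1.1 : ℕ)) ((-2) ^ (x.2.1 : ℕ)) n
          (h ((-2) ^ (x.1.1 : ℕ)) ((-2) ^ (x.2.1 : ℕ)) (x.1.2 i, x.2.2 i)) : ℝ) ≠ 0 := by
        intro i _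
        have := cnt_pos ((-2) ^ (x.1.1 : ℕ)) ((-2) ^ (x.2.1 : ℕ)) n (x.1.2 i, x.2.2 i)
        exact_mod_cast this.ne'
      refine le_trans (Real.log_le_log hpos hb) ?_
      rw [Real.log_mul (by norm_num) (Finset.prod_ne_zero_iff.2 hc), Real.log_prod hc]
    have h2 : ∑ x : Om N n (r + 1) × Om N n (r + 1), (0 + ∑ i,
          (fun (a b : ℕ) (w : B n × B n) => Real.log (cnt ((-2) ^ a) (2 * (-2) ^ b) n
            (h ((-2) ^ a) (2 * (-2) ^ b) w))) (x.1.1 : ℕ) (x.2.1 : ℕ) (x.1.2 i, x.2.2 i)) ≤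
        ∑ x : Om N n (r + 1) × Om N n (r + 1), Real.log (RR 2 x.1 x.2) := by
      refine Finset.sum_le_sum (fun x _ => ?_)
      have hc : ∀ i ∈ (Finset.univ : Finset (Fin (r + 1))),
          (cnt ((-2) ^ (x.1.1 : ℕ)) (2 * (-2) ^ (x.2.1 : ℕ)) n
          (h ((-2) ^ (x.1.1 : ℕ)) (2 * (-2) ^ (x.2.1 : ℕ)) (x.1.2 i, x.2.2 i)) : ℝ) ≠ 0 := by
        intro i _
        have := cnt_pos ((-2) ^ (x.1.1 : ℕ)) (2 * (-2) ^ (x.2.1 : ℕ)) n (x.1.2 i, x.2.2 i)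
        exact_mod_cast this.ne'
      rw [zero_add, ← Real.log_prod hc]
      apply Real.log_le_log
      · exact Finset.prod_pos (fun i hi => lt_of_le_of_ne (Nat.cast_nonneg _) (hc i hi).symm)
      · exact_mod_cast RR2_ge x.1 x.2
    have t1 := total_sum N n r (Real.log 2)
      (fun (a b : ℕ) (w : B n × B n) => Real.log (cnt ((-2) ^ a) ((-2) ^ b) n
            (h ((-2) ^ a) ((-2) ^ b) w)))
    have t2 := total_sum N n r 0
      (fun (a b : ℕ) (w : B n × B n) => Real.log (cnt ((-2) ^ a) (2 * (-2) ^ b) n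
            (h ((-2) ^ a) (2 * (-2) ^ b) w)))
    refine lt_of_le_of_lt (h1.trans_eq t1) (lt_of_lt_of_le ?_ (t2.symm.trans_le h2))
    have e1 : ∀ a b : ℕ, ∑ w : B n × B n, Real.log (cnt ((-2) ^ a) ((-2) ^ b) n
            (h ((-2) ^ a) ((-2) ^ b) w)) = LL ((-2) ^ a) ((-2) ^ b) n := fun a b => rfl
    have e2 : ∀ a b : ℕ, ∑ w : B n × B n, Real.log (cnt ((-2) ^ a) (2 * (-2) ^ b) n
            (h ((-2) ^ a) (2 * (-2) ^ b) w)) = LL ((-2) ^ a) (2 * (-2) ^ b) n := fun a b => rfl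
    simp only [e1, e2, mul_zero, zero_add]
    rw [← hM]
    rw [← sub_pos, ← Finset.sum_sub_distrib]
    simp only [← Finset.sum_sub_distrib]
    have e3 : ∑ a ∈ Finset.range N, ∑ b ∈ Finset.range N,
        (((r : ℝ) + 1) * M ^ r * LL ((-2) ^ a) (2 * (-2) ^ b) n -
          (M ^ (r + 1) * Real.log 2 + ((r : ℝ) + 1) * M ^ r * LL ((-2) ^ a) ((-2) ^ b) n)) =
        M ^ r * (((r : ℝ) + 1) * Γ - (N : ℝ) * N * M * Real.log 2) := by
      have e4 : ∀ a ∈ Finset.range N, ∀ b ∈ Finset.range N,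
          (((r : ℝ) + 1) * M ^ r * LL ((-2) ^ a) (2 * (-2) ^ b) n -
          (M ^ (r + 1) * Real.log 2 + ((r : ℝ) + 1) * M ^ r * LL ((-2) ^ a) ((-2) ^ b) n)) =
          ((r : ℝ) + 1) * M ^ r * (LL ((-2) ^ a) (2 * (-2) ^ b) n - LL ((-2) ^ a) ((-2) ^ b) n) -
          M ^ (r + 1) * Real.log 2 := fun a _ b _ => by ring
      rw [Finset.sum_congr rfl (fun a ha => Finset.sum_congr rfl (e4 a ha))]
      simp only [Finset.sum_sub_distrib, ← Finset.mul_sum, Finset.sum_const, Finset.card_range,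
        nsmul_eq_mul]
      rw [hΓ]
      simp only [Finset.sum_sub_distrib]
      rw [pow_succ]
      ring
    rw [e3]
    apply mul_pos (by positivity)
    nlinarith

/-- The main theorem: a scaled indicator function with `‖α + 2·α‖ < ‖α + α‖`. -/
theorem main : ∃ (S : Finset ℤ) (l : ℝ), S.Nonempty ∧ 0 < l ∧ l ≤ 1 ∧
    nrm 2 (ind l S) < nrm 1 (ind l S) := by
  obtain ⟨S, hS, h⟩ := exists_S
  obtain ⟨l, h1, h2, h3⟩ := partA S hS h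
  exact ⟨S, l, hS, h1, h2, h3⟩

end Pool.Agent.N766.FD
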