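import Pool.Agent.N766.FD.KInv

set_option autoImplicit false

namespace Pool.Agent.N766.FD

/-- logarithmic energy of a linear form -/
noncomputable def LL (x y : ℤ) (n : ℕ) : ℝ :=
  ∑ b : B n × B n, Real.log (cnt x y n (h x y b))

lemma LL_swap (x y : ℤ) (n : ℕ) : LL x y n = LL y x n := by
  unfold LL
  refine Fintype.sum_equiv (Equiv.prodComm _ _) _ _ (fun b => ?_)
  rw [cnt_swap]
  congr 3
  unfold h
  simp only [Equiv.prodComm_apply, Prod.fst_swap, Prod.snd_swap]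
  ring

lemma up1 (a e n : ℕ) :
    LL ((-2) ^ a) ((-2) ^ (a + e)) n ≤
      (n : ℝ) ^ 2 * Lp + (121 * n ^ 2 : ℝ) * Real.log ((n : ℝ) / 2 ^ e + 1) := by
  have h1 := upp a e n
  have h2 : ∀ ρ : ZMod 33,
      k (((-2) ^ a : ℤ) : ZMod 33) (((-2) ^ (a + e) : ℤ) : ZMod 33) ρ = kk 1 1 ρ :=
    fun ρ => k_plus a (a + e) ρ
  simp only [h2] at h1
  exact h1

lemma up2 (a e n : ℕ) :
    LL ((-2) ^ (a + e)) ((-2) ^ a) n ≤
      (n : ℝ) ^ 2 * Lp + (121 * n ^ 2 : ℝ) * Real.log ((n : ℝ) / 2 ^ e + 1) := by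
  rw [LL_swap]
  exact up1 a e n

lemma abs_neg_two_pow (e : ℕ) : |(-2 : ℤ) ^ e| = 2 ^ e := by
  rw [abs_pow]; norm_num

/-- lower bound, first case -/
lemma dn1 (a e n : ℕ) (hn : 1 ≤ n) :
    (n : ℝ) ^ 2 * Lm + (121 * n ^ 2 : ℝ) * Real.log ((n : ℝ) / (1 + 2 * 2 ^ e)) ≤
      LL ((-2) ^ a) (2 * (-2) ^ (a + e)) n := by
  have h1 := low a 1 (-(-2) ^ (e + 1)) (1 + 2 ^ (e + 1)) (by
    rw [abs_neg, abs_neg_two_pow]; push_cast; norm_num) (Nat.le_add_right _ _) n hn
    ((-2) ^ a) (2 * (-2) ^ (a + e)) (by ring) (by rw [pow_add, pow_succ]; ring)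
  have h2 : ∀ ρ : ZMod 33,
      k (((-2) ^ a : ℤ) : ZMod 33) ((2 * (-2) ^ (a + e) : ℤ) : ZMod 33) ρ = kk 1 (-1) ρ :=
    fun ρ => k_minus a (a + e) ρ
  simp only [h2] at h1
  have h3 : (((1 + 2 ^ (e + 1) : ℕ)) : ℝ) = 1 + 2 * 2 ^ e := by push_cast; ring
  rw [h3] at h1
  exact h1

/-- lower bound, second case -/
lemma dn2 (a e n : ℕ) (hn : 1 ≤ n) :
    (n : ℝ) ^ 2 * Lm + (121 * n ^ 2 : ℝ) * Real.log ((n : ℝ) / (1 + 2 ^ e)) ≤
      LL ((-2) ^ (a + (e + 1))) (2 * (-2) ^ a) n := by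
  have h1 := low (a + 1) ((-2) ^ e) (-1) (1 + 2 ^ e) (by
    rw [abs_neg_two_pow]; push_cast; norm_num; ring) (Nat.le_add_right _ _) n hn
    ((-2) ^ (a + (e + 1))) (2 * (-2) ^ a) (by rw [← pow_add]; congr 1; ring) (by rw [pow_succ]; ring)
  have h2 : ∀ ρ : ZMod 33,
      k (((-2) ^ (a + (e + 1)) : ℤ) : ZMod 33) ((2 * (-2) ^ a : ℤ) : ZMod 33) ρ = kk 1 (-1) ρ :=
    fun ρ => k_minus (a + (e + 1)) a ρ
  simp only [h2] at h1
  have h3 : (((1 + 2 ^ e : ℕ)) : ℝ) = 1 + 2 ^ e := by push_cast; ring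
  rw [h3] at h1
  exact h1

lemma tau1 (n t : ℝ) (hn : 0 < n) (ht : 0 < t) :
    -Real.log 2 - 2 / t - t / n ≤ Real.log (n / (1 + 2 * t)) - Real.log (n / t + 1) := by
  rw [Real.log_div hn.ne' (by positivity)]
  have e1 : (1 + 2 * t) * (n / t + 1) = n * (2 * (1 + 1 / (2 * t)) * (1 + t / n)) := by
    field_simp
    ring
  have h1 : Real.log (1 + 2 * t) + Real.log (n / t + 1) =
      Real.log n + (Real.log 2 + Real.log (1 + 1 / (2 * t)) + Real.log (1 + t / n)) := by
    rw [← Real.log_mul (by positivity) (by positivity), e1,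
      Real.log_mul (by positivity) (by positivity), Real.log_mul (by positivity) (by positivity),
      Real.log_mul (by positivity) (by positivity)]
  have h2 : Real.log (1 + 1 / (2 * t)) ≤ 1 / (2 * t) := by
    have := Real.log_le_sub_one_of_pos (show 0 < 1 + 1 / (2 * t) by positivity)
    linarith
  have h3 : Real.log (1 + t / n) ≤ t / n := by
    have := Real.log_le_sub_one_of_pos (show 0 < 1 + t / n by positivity)
    linarith
  have h4 : 1 / (2 * t) ≤ 2 / t := by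
    rw [div_le_div_iff₀ (by positivity) ht]
    linarith
  linarith

lemma tau2 (n t : ℝ) (hn : 0 < n) (ht : 0 < t) :
    Real.log 2 - 1 / t - 2 * t / n ≤ Real.log (n / (1 + t)) - Real.log (n / (2 * t) + 1) := by
  rw [Real.log_div hn.ne' (by positivity)]
  have e1 : 2 * ((1 + t) * (n / (2 * t) + 1)) = n * ((1 + 1 / t) * (1 + 2 * t / n)) := by
    field_simp
    ring
  have h1 : Real.log 2 + (Real.log (1 + t) + Real.log (n / (2 * t) + 1)) =
      Real.log n + (Real.log (1 + 1 / t) + Real.log (1 + 2 * t / n)) := by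
    rw [← Real.log_mul (by positivity) (by positivity),
      ← Real.log_mul (by positivity) (by positivity), e1,
      Real.log_mul (by positivity) (by positivity), Real.log_mul (by positivity) (by positivity)]
  have h2 : Real.log (1 + 1 / t) ≤ 1 / t := by
    have := Real.log_le_sub_one_of_pos (show 0 < 1 + 1 / t by positivity)
    linarith
  have h3 : Real.log (1 + 2 * t / n) ≤ 2 * t / n := by
    have := Real.log_le_sub_one_of_pos (show 0 < 1 + 2 * t / n by positivity)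
    linarith
  linarith

/-- the sign -/
noncomputable def sg (a b : ℕ) : ℝ := if a ≤ b then -1 else 1

/-- distance of exponents -/
def ds (a b : ℕ) : ℕ := (a - b) + (b - a)

/-- the lower bound for a pair of scales -/
lemma pair_bound (a b n : ℕ) (hn : 1 ≤ n) :
    (n : ℝ) ^ 2 * (Lm - Lp) + (121 * n ^ 2 : ℝ) *
      (sg a b * Real.log 2 - 2 * (1 / 2) ^ (ds a b) - 2 ^ (ds a b) / n) ≤
    LL ((-2) ^ a) (2 * (-2) ^ b) n - LL ((-2) ^ a) ((-2) ^ b) n := by
  have hnpos : (0 : ℝ) < n := by exact_mod_cast hn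
  rcases le_or_gt a b with hab | hab
  · obtain ⟨e, rfl⟩ := Nat.exists_eq_add_of_le hab
    have hd : ds a (a + e) = e := by unfold ds; omega
    have hs : sg a (a + e) = -1 := by unfold sg; rw [if_pos hab]
    rw [hd, hs]
    have h1 := up1 a e n
    have h2 := dn1 a e n hn
    have h3 := tau1 n (2 ^ e) hnpos (by positivity)
    have h4 : (2 : ℝ) / 2 ^ e = 2 * (1 / 2) ^ e := by
      rw [one_div, inv_pow]; ring
    rw [h4] at h3
    have h5 : (0 : ℝ) < 121 * n ^ 2 := by positivity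
    have h6 := mul_le_mul_of_nonneg_left h3 h5.le
    nlinarith
  · obtain ⟨e, rfl⟩ := Nat.exists_eq_add_of_lt hab
    have hd : ds (b + e + 1) b = e + 1 := by unfold ds; omega
    have hs : sg (b + e + 1) b = 1 := by unfold sg; rw [if_neg (by omega)]
    rw [hd, hs]
    have h1 := up2 b (e + 1) n
    have h2 := dn2 b e n hn
    have h3 := tau2 n (2 ^ e) hnpos (by positivity)
    have h4 : (1 : ℝ) / 2 ^ e = 2 * (1 / 2) ^ (e + 1) := by
      rw [one_div, one_div, inv_pow, pow_succ]; field_simp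
    have h4' : (2 : ℝ) * 2 ^ e = 2 ^ (e + 1) := by rw [pow_succ]; ring
    rw [h4, h4'] at h3
    have h5 : (0 : ℝ) < 121 * n ^ 2 := by positivity
    have h6 := mul_le_mul_of_nonneg_left h3 h5.le
    have h7 : b + e + 1 = b + (e + 1) := by ring
    rw [h7]
    nlinarith

lemma double_succ (F : ℕ → ℕ → ℝ) (N : ℕ) :
    ∑ a ∈ Finset.range (N + 1), ∑ b ∈ Finset.range (N + 1), F a b =
      (∑ a ∈ Finset.range N, ∑ b ∈ Finset.range N, F a b) + (∑ a ∈ Finset.range N, F a N) +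
        (∑ b ∈ Finset.range N, F N b) + F N N := by
  rw [Finset.sum_range_succ]
  simp only [Finset.sum_range_succ, Finset.sum_add_distrib]
  ring

lemma sum_sg (N : ℕ) :
    ∑ a ∈ Finset.range N, ∑ b ∈ Finset.range N, sg a b = -(N : ℝ) := by
  induction N with
  | zero => simp
  | succ N ih =>
    rw [double_succ, ih]
    have h1 : ∑ a ∈ Finset.range N, sg a N = -(N : ℝ) := by
      rw [Finset.sum_congr rfl (g := fun _ => (-1 : ℝ)) (fun a ha => by
        unfold sg; rw [if_pos (Finset.mem_range.1 ha).le])]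
      simp
    have h2 : ∑ b ∈ Finset.range N, sg N b = (N : ℝ) := by
      rw [Finset.sum_congr rfl (g := fun _ => (1 : ℝ)) (fun b hb => by
        unfold sg; rw [if_neg (by have := Finset.mem_range.1 hb; omega)])]
      simp
    have h3 : sg N N = -1 := by unfold sg; rw [if_pos le_rfl]
    rw [h1, h2, h3]
    push_cast
    ring

lemma geom_half (N : ℕ) : ∑ a ∈ Finset.range N, ((1 : ℝ) / 2) ^ (N - a) ≤ 1 := by
  induction N with
  | zero => simp
  | succ N ih =>
    rw [Finset.sum_range_succ]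
    have h1 : ∑ a ∈ Finset.range N, ((1 : ℝ) / 2) ^ (N + 1 - a) =
        (1 / 2) * ∑ a ∈ Finset.range N, ((1 : ℝ) / 2) ^ (N - a) := by
      rw [Finset.mul_sum]
      refine Finset.sum_congr rfl (fun a ha => ?_)
      have : N + 1 - a = (N - a) + 1 := by have := Finset.mem_range.1 ha; omega
      rw [this, pow_succ]; ring
    have h2 : N + 1 - N = 1 := by omega
    rw [h1, h2]
    linarith

lemma sum_half (N : ℕ) :
    ∑ a ∈ Finset.range N, ∑ b ∈ Finset.range N, ((1 : ℝ) / 2) ^ (ds a b) ≤ 3 * (N : ℝ) := by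
  induction N with
  | zero => simp
  | succ N ih =>
    rw [double_succ]
    have h1 : ∑ a ∈ Finset.range N, ((1 : ℝ) / 2) ^ (ds a N) =
        ∑ a ∈ Finset.range N, ((1 : ℝ) / 2) ^ (N - a) := by
      refine Finset.sum_congr rfl (fun a ha => ?_)
      have : ds a N = N - a := by unfold ds; have := Finset.mem_range.1 ha; omega
      rw [this]
    have h2 : ∑ b ∈ Finset.range N, ((1 : ℝ) / 2) ^ (ds N b) =
        ∑ a ∈ Finset.range N, ((1 : ℝ) / 2) ^ (N - a) := by
      refine Finset.sum_congr rfl (fun a ha => ?_)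
      have : ds N a = N - a := by unfold ds; have := Finset.mem_range.1 ha; omega
      rw [this]
    have h3 : ds N N = 0 := by unfold ds; omega
    have h4 := geom_half N
    rw [h1, h2, h3]
    push_cast
    norm_num at h4 ⊢
    linarith

theorem gamma_pos : ∃ N n : ℕ, 1 ≤ n ∧
    0 < ∑ a ∈ Finset.range N, ∑ b ∈ Finset.range N,
      (LL ((-2) ^ a) (2 * (-2) ^ b) n - LL ((-2) ^ a) ((-2) ^ b) n) := by
  have hD : 0 < Lm - Lp := sub_pos.2 Lp_lt_Lm
  obtain ⟨N, hN⟩ := exists_nat_gt (max 1 (121 * 8 / (Lm - Lp)))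
  have hN1 : (1 : ℝ) < N := lt_of_le_of_lt (le_max_left _ _) hN
  have hN2 : 121 * 8 / (Lm - Lp) < N := lt_of_le_of_lt (le_max_right _ _) hN
  rw [div_lt_iff₀ hD] at hN2
  have hNpos : 0 < N := by
    have : (0 : ℝ) < N := by linarith
    exact_mod_cast this
  refine ⟨N, N * 2 ^ N, Nat.one_le_iff_ne_zero.2 (by positivity), ?_⟩
  set n : ℕ := N * 2 ^ N with hn
  have hn1 : 1 ≤ n := Nat.one_le_iff_ne_zero.2 (by positivity)
  have hnpos : (0 : ℝ) < n := by exact_mod_cast hn1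
  have h1 : ∑ a ∈ Finset.range N, ∑ b ∈ Finset.range N,
      ((n : ℝ) ^ 2 * (Lm - Lp) + (121 * n ^ 2 : ℝ) *
      (sg a b * Real.log 2 - 2 * (1 / 2) ^ (ds a b) - 1 / N)) ≤
      ∑ a ∈ Finset.range N, ∑ b ∈ Finset.range N,
      (LL ((-2) ^ a) (2 * (-2) ^ b) n - LL ((-2) ^ a) ((-2) ^ b) n) := by
    refine Finset.sum_le_sum (fun a ha => Finset.sum_le_sum (fun b hb => ?_))
    refine le_trans ?_ (pair_bound a b n hn1)
    have h2 : (2 : ℝ) ^ (ds a b) / n ≤ 1 / N := by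
      rw [div_le_div_iff₀ hnpos (by exact_mod_cast hNpos)]
      rw [hn]
      push_cast
      have h3 : ds a b ≤ N := by
        unfold ds
        have h4 := Finset.mem_range.1 ha
        have h5 := Finset.mem_range.1 hb
        omega
      have h6 : (2 : ℝ) ^ (ds a b) ≤ 2 ^ N := pow_le_pow_right₀ (by norm_num) h3
      nlinarith
    have h5 : (0 : ℝ) < 121 * n ^ 2 := by positivity
    nlinarith
  refine lt_of_lt_of_le ?_ h1
  have h2 : ∑ a ∈ Finset.range N, ∑ b ∈ Finset.range N,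
      ((n : ℝ) ^ 2 * (Lm - Lp) + (121 * n ^ 2 : ℝ) *
      (sg a b * Real.log 2 - 2 * (1 / 2) ^ (ds a b) - 1 / N)) =
      (N : ℝ) * (N * ((n : ℝ) ^ 2 * (Lm - Lp))) + (121 * n ^ 2 : ℝ) *
      ((∑ a ∈ Finset.range N, ∑ b ∈ Finset.range N, sg a b) * Real.log 2 -
        2 * (∑ a ∈ Finset.range N, ∑ b ∈ Finset.range N, ((1 : ℝ) / 2) ^ (ds a b)) -
        N * (N * (1 / N))) := by
    simp only [Finset.sum_add_distrib, Finset.sum_sub_distrib, ← Finset.mul_sum,
      Finset.sum_const, Finset.card_range, nsmul_eq_mul, ← Finset.sum_mul]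
    try ring
  rw [h2, sum_sg]
  have h3 := sum_half N
  have h4 : (N : ℝ) * (N * (1 / N)) = N := by field_simp
  rw [h4]
  have h5 : Real.log 2 < 1 := by
    have := Real.log_two_lt_d9
    linarith
  have h6 : (-(N : ℝ)) * Real.log 2 - 2 * (∑ a ∈ Finset.range N, ∑ b ∈ Finset.range N,
      ((1 : ℝ) / 2) ^ (ds a b)) - N > -(8 * N) := by nlinarith
  have h7 : (0 : ℝ) < 121 * n ^ 2 := by positivity
  have h8 : (N : ℝ) * (N * ((n : ℝ) ^ 2 * (Lm - Lp))) = n ^ 2 * N * (N * (Lm - Lp)) := by ring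
  rw [h8]
  have h9 : (n : ℝ) ^ 2 * N * (N * (Lm - Lp)) > n ^ 2 * N * (121 * 8) := by
    apply mul_lt_mul_of_pos_left
    · linarith
    · positivity
  nlinarith

end Pool.Agent.N766.FD
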