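import Pool.Agent.N766.FD.SetVersion

set_option autoImplicit false

namespace Pool.Agent.N766.FD

open scoped ENNReal

lemma nrm_ge (c : ℤ) (S : Finset ℤ) :
    (((S ×ˢ S).image (fun x : ℤ × ℤ => x.1 + c * x.2)).card : ℝ≥0∞) ≤ nrm c (ind 1 S) := by
  unfold nrm
  refine le_iInf₂ (fun p hp => ?_)
  refine le_trans ?_ (ENNReal.sum_le_tsum ((S ×ˢ S).image (fun x : ℤ × ℤ => x.1 + c * x.2)))
  rw [Finset.card_eq_sum_ones, Nat.cast_sum]
  refine Finset.sum_le_sum (fun i hi => ?_)
  obtain ⟨x, hx, rfl⟩ := Finset.mem_image.1 hi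
  rw [conv_ind c 1 zero_le_one]
  have h1 : (1 : ℝ) ≤ rep c S (x.1 + c * x.2) := by exact_mod_cast rep_pos c S x hx
  have h2 : (1 : ℝ≥0∞) ≤ ENNReal.ofReal (1 ^ 2 * rep c S (x.1 + c * x.2)) := by
    rw [one_pow, one_mul, ← ENNReal.ofReal_one]
    exact ENNReal.ofReal_le_ofReal h1
  have h3 := ENNReal.one_le_rpow h2 hp.1
  simpa using h3

lemma nrm_lt (c : ℤ) (S : Finset ℤ) (hS : S.Nonempty) (m : ℕ)
    (hm : ((S ×ˢ S).image (fun x : ℤ × ℤ => x.1 + c * x.2)).card < m) :
    nrm c (ind 1 S) < m := by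
  set I := (S ×ˢ S).image (fun x : ℤ × ℤ => x.1 + c * x.2) with hI
  have hIpos : 0 < I.card := Finset.card_pos.2 (Finset.Nonempty.image (Finset.Nonempty.product hS hS) _)
  have hIr : (1 : ℝ) ≤ I.card := by exact_mod_cast hIpos
  set M : ℝ := ((S ×ˢ S).card : ℝ) with hM
  have hM1 : 1 ≤ M := by
    rw [hM]
    exact_mod_cast Finset.card_pos.2 (Finset.Nonempty.product hS hS)
  have hL : 0 ≤ Real.log M := Real.log_nonneg hM1
  set p : ℝ := 1 / (4 * I.card * (Real.log M + 1)) with hp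
  have hp0 : 0 < p := by positivity
  have hp1 : p < 1 := by
    rw [hp, div_lt_one (by positivity)]
    nlinarith
  have ht : p * Real.log M ≤ 1 / (4 * I.card) := by
    rw [hp, div_mul_eq_mul_div, one_mul, div_le_div_iff₀ (by positivity) (by positivity)]
    nlinarith
  have ht1 : (1 : ℝ) / (4 * I.card) ≤ 1 / 4 := by
    rw [div_le_div_iff₀ (by positivity) (by norm_num)]
    linarith
  have hMp : M ^ p < 1 + 1 / I.card := by
    rw [Real.rpow_def_of_pos (by linarith)]
    have hb : |Real.log M * p| ≤ 1 := by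
      rw [abs_of_nonneg (by positivity)]
      linarith
    have h1 := (abs_le.1 (Real.abs_exp_sub_one_sub_id_le hb)).2
    have h2 : 0 ≤ Real.log M * p := by positivity
    have h3 : Real.log M * p ≤ 1 / (4 * I.card) := by linarith
    have h4 : (Real.log M * p) ^ 2 ≤ Real.log M * p := by nlinarith
    have h5 : (1 : ℝ) / (4 * I.card) = 1 / I.card / 4 := by field_simp
    have h6 : (0 : ℝ) < 1 / I.card := by positivity
    rw [h5] at h3
    linarith
  have hle : nrm c (ind 1 S) ≤ ENNReal.ofReal (I.card * M ^ p) := by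
    unfold nrm
    refine iInf₂_le_of_le p ⟨hp0, hp1⟩ ?_
    rw [tsum_eq_sum (s := I)]
    · have h1 : ∀ i ∈ I, (conv c (ind 1 S) i) ^ p ≤ ENNReal.ofReal (M ^ p) := by
        intro i hi
        obtain ⟨x, hx, rfl⟩ := Finset.mem_image.1 hi
        have h1 : (0 : ℝ) < rep c S (x.1 + c * x.2) := by exact_mod_cast rep_pos c S x hx
        rw [conv_ind c 1 zero_le_one, one_pow, one_mul, ENNReal.ofReal_rpow_of_pos h1]
        apply ENNReal.ofReal_le_ofReal
        apply Real.rpow_le_rpow h1.le _ hp0.le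
        rw [hM]
        unfold rep
        exact_mod_cast Finset.card_filter_le _ _
      refine le_trans (Finset.sum_le_sum h1) ?_
      rw [Finset.sum_const, nsmul_eq_mul, ENNReal.ofReal_mul (Nat.cast_nonneg _),
        ENNReal.ofReal_natCast]
    · intro i hi
      rw [conv_ind c 1 zero_le_one]
      have : rep c S i = 0 := by
        unfold rep
        rw [Finset.card_eq_zero, Finset.filter_eq_empty_iff]
        intro x hx hxi
        exact hi (Finset.mem_image.2 ⟨x, hx, hxi⟩)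
      rw [this]
      simp [ENNReal.zero_rpow_of_pos hp0]
  refine lt_of_le_of_lt hle ?_
  have h7 : (I.card : ℝ) * M ^ p < m := by
    have h8 : (I.card : ℝ) + 1 ≤ m := by exact_mod_cast hm
    have h9 : (I.card : ℝ) * M ^ p < I.card * (1 + 1 / I.card) :=
      mul_lt_mul_of_pos_left hMp (by linarith)
    have h10 : (I.card : ℝ) * (1 + 1 / I.card) = I.card + 1 := by field_simp
    linarith
  rw [← ENNReal.ofReal_natCast m, ENNReal.ofReal_lt_ofReal_iff]
  · exact h7
  · have : (1 : ℝ) ≤ m := by exact_mod_cast (by omega : 1 ≤ m)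
    linarith

/-- A finite set `S` with `|S + 2·S| < |S + S|`, in terms of its indicator function too. -/
theorem main_set : ∃ S : Finset ℤ, S.Nonempty ∧
    ((S ×ˢ S).image (fun x : ℤ × ℤ => x.1 + 2 * x.2)).card <
      ((S ×ˢ S).image (fun x : ℤ × ℤ => x.1 + x.2)).card ∧
    nrm 2 (ind 1 S) < nrm 1 (ind 1 S) := by
  obtain ⟨S, hS, h⟩ := set_version
  unfold Pool.Agent.Results.MP_0d5181_co.FractionalDilates.sumDil at h
  have h1 : ((S ×ˢ S).image (fun x : ℤ × ℤ => x.1 + 1 * x.2)) =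
      ((S ×ˢ S).image (fun x : ℤ × ℤ => x.1 + x.2)) := by
    congr 1
    funext x
    rw [one_mul]
  refine ⟨S, hS, by rw [← h1]; exact h, ?_⟩
  refine lt_of_lt_of_le (nrm_lt 2 S hS _ h) (nrm_ge 1 S)

end Pool.Agent.N766.FD
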