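import Pool.Agent.N766.FD.Low

set_option autoImplicit false

namespace Pool.Agent.N766.FD

/-- a fast version of `k` -/
def kk (x y w : ZMod 33) : ℕ := ((A ×ˢ A).filter (fun s => x * s.1 + y * s.2 = w)).card

lemma k_eq_kk (x y w : ZMod 33) : k x y w = kk x y w := by
  unfold k kk
  refine Finset.card_bij (fun s _ => (s.1.1, s.2.1)) ?_ ?_ ?_
  · intro s hs
    have := (Finset.mem_filter.1 hs).2
    exact Finset.mem_filter.2 ⟨Finset.mem_product.2 ⟨s.1.2, s.2.2⟩, this⟩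
  · intro s _ t _ hst
    simp only [Prod.mk.injEq] at hst
    exact Prod.ext (Subtype.ext hst.1) (Subtype.ext hst.2)
  · intro s hs
    obtain ⟨h1, h2⟩ := Finset.mem_filter.1 hs
    obtain ⟨h3, h4⟩ := Finset.mem_product.1 h1
    exact ⟨(⟨s.1, h3⟩, ⟨s.2, h4⟩), Finset.mem_filter.2 ⟨Finset.mem_univ _, h2⟩, rfl⟩

/-- the powers of `-2` -/
def G5 : Finset (ZMod 33) := {1, 31, 4, 25, 16}

lemma pow_mem (a : ℕ) : ((-2 : ZMod 33)) ^ a ∈ G5 := by
  induction a with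
  | zero => decide
  | succ a ih =>
    have : ∀ x ∈ G5, x * (-2) ∈ G5 := by decide
    rw [pow_succ]
    exact this _ ih

lemma A_inv : ∀ g ∈ G5, ∀ x ∈ A, g * x ∈ A := by decide

lemma G5_unit : ∀ g ∈ G5, ∃ g' ∈ G5, g' * g = 1 ∧ g * g' = 1 := by decide

lemma kk_left (g : ZMod 33) (hg : g ∈ G5) (x y w : ZMod 33) : kk (x * g) y w = kk x y w := by
  obtain ⟨g', hg', h1, h2⟩ := G5_unit g hg
  unfold kk
  refine Finset.card_nbij' (fun s => (g * s.1, s.2)) (fun s => (g' * s.1, s.2)) ?_ ?_ ?_ ?_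
  · intro s hs
    simp only [Finset.coe_filter, Finset.mem_product, Set.mem_ofPred_eq] at hs ⊢
    refine ⟨⟨A_inv g hg _ hs.1.1, hs.1.2⟩, ?_⟩
    rw [← hs.2]; ring
  · intro s hs
    simp only [Finset.coe_filter, Finset.mem_product, Set.mem_ofPred_eq] at hs ⊢
    refine ⟨⟨A_inv g' hg' _ hs.1.1, hs.1.2⟩, ?_⟩
    rw [← hs.2]
    have : x * g * (g' * s.1) = x * s.1 * (g * g') := by ring
    rw [this, h2, mul_one]
  · intro s _
    simp only
    rw [← mul_assoc, h1, one_mul]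
  · intro s _
    simp only
    rw [← mul_assoc, h2, one_mul]

lemma kk_swap (x y w : ZMod 33) : kk x y w = kk y x w := by
  rw [← k_eq_kk, ← k_eq_kk, k_swap]

lemma kk_right (g : ZMod 33) (hg : g ∈ G5) (x y w : ZMod 33) : kk x (y * g) w = kk x y w := by
  rw [kk_swap, kk_left g hg, kk_swap]

lemma k_plus (a b : ℕ) (w : ZMod 33) :
    k (((-2) ^ a : ℤ) : ZMod 33) (((-2) ^ b : ℤ) : ZMod 33) w = kk 1 1 w := by
  rw [k_eq_kk]
  push_cast
  have h1 := kk_left _ (pow_mem a) 1 ((-2) ^ b) w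
  have h2 := kk_right _ (pow_mem b) 1 1 w
  rw [one_mul] at h1 h2
  rw [h1, h2]

lemma k_minus (a b : ℕ) (w : ZMod 33) :
    k (((-2) ^ a : ℤ) : ZMod 33) ((2 * (-2) ^ b : ℤ) : ZMod 33) w = kk 1 (-1) w := by
  rw [k_eq_kk]
  push_cast
  have h1 := kk_left _ (pow_mem a) 1 (2 * (-2) ^ b) w
  have h2 := kk_right _ (pow_mem (b + 1)) 1 (-1) w
  rw [one_mul] at h1
  have h3 : (-1 : ZMod 33) * (-2) ^ (b + 1) = 2 * (-2) ^ b := by rw [pow_succ]; ring
  rw [h3] at h2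
  rw [h1, h2]

/-- entropy-like constants -/
noncomputable def Lp : ℝ := ∑ ρ : ZMod 33, (kk 1 1 ρ : ℝ) * Real.log (kk 1 1 ρ)

/-- entropy-like constants -/
noncomputable def Lm : ℝ := ∑ ρ : ZMod 33, (kk 1 (-1) ρ : ℝ) * Real.log (kk 1 (-1) ρ)

lemma log_prod_pow (f : ZMod 33 → ℕ) :
    ∑ ρ : ZMod 33, (f ρ : ℝ) * Real.log (f ρ) = Real.log ((∏ ρ : ZMod 33, f ρ ^ f ρ : ℕ) : ℝ) := by
  push_cast
  rw [Real.log_prod]
  · refine Finset.sum_congr rfl (fun ρ _ => ?_)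
    rw [Real.log_pow]
  · intro ρ _
    rcases Nat.eq_zero_or_pos (f ρ) with h | h
    · rw [h]; simp
    · positivity

set_option maxRecDepth 100000 in
lemma prod_lt : (∏ ρ : ZMod 33, kk 1 1 ρ ^ kk 1 1 ρ) < ∏ ρ : ZMod 33, kk 1 (-1) ρ ^ kk 1 (-1) ρ := by
  decide +kernel

set_option maxRecDepth 100000 in
lemma prod_pos : 0 < (∏ ρ : ZMod 33, kk 1 1 ρ ^ kk 1 1 ρ) := by
  decide +kernel

lemma Lp_lt_Lm : Lp < Lm := by
  unfold Lp Lm
  rw [log_prod_pow, log_prod_pow]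
  apply Real.log_lt_log
  · exact_mod_cast prod_pos
  · exact_mod_cast prod_lt

end Pool.Agent.N766.FD
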