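import Pool.Agent.N766.FD.Count

set_option autoImplicit false

namespace Pool.Agent.N766.FD

lemma cnt_pos (x y : ℤ) (n : ℕ) (b : B n × B n) : 0 < cnt x y n (h x y b) := by
  unfold cnt
  exact Finset.card_pos.2 ⟨b, Finset.mem_filter.2 ⟨Finset.mem_univ _, rfl⟩⟩

lemma k_pos (x y : ℤ) (n : ℕ) (b : B n × B n) :
    0 < k (x : ZMod 33) (y : ZMod 33) ((h x y b : ℤ) : ZMod 33) := by
  unfold k
  exact Finset.card_pos.2 ⟨(b.1.2, b.2.2), Finset.mem_filter.2 ⟨Finset.mem_univ _, (h_cast x y b).symm⟩⟩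

lemma sum_k (x y : ZMod 33) : ∑ ρ : ZMod 33, k x y ρ = 121 := by
  unfold k
  rw [← Finset.card_eq_sum_card_fiberwise (f := fun s : V × V => x * s.1.1 + y * s.2.1)
    (s := Finset.univ) (t := Finset.univ) (by simp [Set.MapsTo])]
  rw [Finset.card_univ, Fintype.card_prod, card_V]

lemma card_B2 (n : ℕ) : Fintype.card (B n × B n) = 121 * n ^ 2 := by
  rw [Fintype.card_prod, Fintype.card_prod, card_V, Fintype.card_fin]
  ring

lemma sum_g (x y : ℤ) (n : ℕ) (g : ZMod 33 → ℝ) :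
    ∑ b : B n × B n, g ((h x y b : ℤ) : ZMod 33) =
      (n : ℝ) ^ 2 * ∑ ρ : ZMod 33, (k (x : ZMod 33) (y : ZMod 33) ρ : ℝ) * g ρ := by
  have h1 : ∀ b : B n × B n, g ((h x y b : ℤ) : ZMod 33) =
      g ((x : ZMod 33) * b.1.2.1 + (y : ZMod 33) * b.2.2.1) := fun b => by rw [h_cast]
  rw [Finset.sum_congr rfl (fun b _ => h1 b)]
  have h2 : ∑ s : V × V, g ((x : ZMod 33) * s.1.1 + (y : ZMod 33) * s.2.1) =
      ∑ ρ : ZMod 33, (k (x : ZMod 33) (y : ZMod 33) ρ : ℝ) * g ρ := by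
    rw [← Finset.sum_fiberwise (s := Finset.univ)
      (g := fun s : V × V => (x : ZMod 33) * s.1.1 + (y : ZMod 33) * s.2.1)
      (f := fun s : V × V => g ((x : ZMod 33) * s.1.1 + (y : ZMod 33) * s.2.1))]
    refine Finset.sum_congr rfl (fun ρ _ => ?_)
    rw [Finset.sum_congr rfl (g := fun _ => g ρ)
      (fun s hs => by rw [(Finset.mem_filter.1 hs).2]), Finset.sum_const, nsmul_eq_mul]
    rfl
  rw [← h2]
  simp only [Fintype.sum_prod_type, Finset.sum_const, Finset.card_univ, Fintype.card_fin,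
    nsmul_eq_mul, Finset.mul_sum]
  refine Finset.sum_congr rfl (fun v _ => Finset.sum_congr rfl (fun v' _ => ?_))
  ring

lemma low (μ : ℕ) (x y : ℤ) (K : ℕ) (hK : |x| + |y| = K) (hK1 : 1 ≤ K) (n : ℕ) (hn : 1 ≤ n)
    (X Y : ℤ) (hX : X = (-2) ^ μ * x) (hY : Y = (-2) ^ μ * y) :
    (n : ℝ) ^ 2 * ∑ ρ : ZMod 33, (k (X : ZMod 33) (Y : ZMod 33) ρ : ℝ) *
        Real.log (k (X : ZMod 33) (Y : ZMod 33) ρ) +
      (121 * n ^ 2 : ℝ) * Real.log ((n : ℝ) / K) ≤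
      ∑ b : B n × B n, Real.log (cnt X Y n (h X Y b)) := by
  have hnpos : (0 : ℝ) < n := by exact_mod_cast hn
  have hKpos : (0 : ℝ) < K := by exact_mod_cast hK1
  have hq : (0 : ℝ) < (n : ℝ) / K := by positivity
  have e0 : (Fintype.card (B n × B n) : ℝ) = 121 * n ^ 2 := by rw [card_B2]; push_cast; ring
  have e1 : (n : ℝ) ^ 2 * ∑ ρ : ZMod 33, (k (X : ZMod 33) (Y : ZMod 33) ρ : ℝ) *
        Real.log (k (X : ZMod 33) (Y : ZMod 33) ρ) +
      (121 * n ^ 2 : ℝ) * Real.log ((n : ℝ) / K) =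
      ∑ b : B n × B n, Real.log (k (X : ZMod 33) (Y : ZMod 33) ((h X Y b : ℤ) : ZMod 33) *
        ((n : ℝ) / K)) := by
    rw [← sum_g X Y n (fun ρ => Real.log (k (X : ZMod 33) (Y : ZMod 33) ρ)), ← e0]
    have : ∀ b ∈ (Finset.univ : Finset (B n × B n)),
        Real.log (k (X : ZMod 33) (Y : ZMod 33) ((h X Y b : ℤ) : ZMod 33) * ((n : ℝ) / K)) =
        Real.log (k (X : ZMod 33) (Y : ZMod 33) ((h X Y b : ℤ) : ZMod 33)) +
          Real.log ((n : ℝ) / K) := by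
      intro b _
      have hk : (0 : ℝ) < k (X : ZMod 33) (Y : ZMod 33) ((h X Y b : ℤ) : ZMod 33) := by
        exact_mod_cast k_pos X Y n b
      rw [Real.log_mul hk.ne' hq.ne']
    rw [Finset.sum_congr rfl this, Finset.sum_add_distrib, Finset.sum_const, Finset.card_univ,
      nsmul_eq_mul]
  rw [e1]
  set q : ZMod 33 → ℝ := fun ρ => (k (X : ZMod 33) (Y : ZMod 33) ρ : ℝ) * ((n : ℝ) / K) with hqd
  have h1 : ∑ b : B n × B n, Real.log (q ((h X Y b : ℤ) : ZMod 33)) ≤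
      ∑ b : B n × B n, (Real.log (cnt X Y n (h X Y b)) +
        (q ((h X Y b : ℤ) : ZMod 33) / cnt X Y n (h X Y b) - 1)) := by
    refine Finset.sum_le_sum (fun b _ => ?_)
    have hc : (0 : ℝ) < cnt X Y n (h X Y b) := by exact_mod_cast cnt_pos X Y n b
    have hk : (0 : ℝ) < k (X : ZMod 33) (Y : ZMod 33) ((h X Y b : ℤ) : ZMod 33) := by
      exact_mod_cast k_pos X Y n b
    have hqp : 0 < q ((h X Y b : ℤ) : ZMod 33) := by rw [hqd]; positivity
    have := Real.log_le_sub_one_of_pos (div_pos hqp hc)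
    rw [Real.log_div hqp.ne' hc.ne'] at this
    linarith
  refine le_trans h1 ?_
  rw [Finset.sum_add_distrib, Finset.sum_sub_distrib, Finset.sum_const, Finset.card_univ,
    nsmul_eq_mul, mul_one, e0]
  have h2 : ∑ b : B n × B n, q ((h X Y b : ℤ) : ZMod 33) / cnt X Y n (h X Y b) ≤ 121 * n ^ 2 := by
    rw [Finset.sum_comp (fun z : ℤ => q (z : ZMod 33) / cnt X Y n z)
      (fun b : B n × B n => h X Y b)]
    have h3 : ∀ z ∈ Finset.univ.image (fun b : B n × B n => h X Y b),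
        (Finset.univ.filter (fun b : B n × B n => h X Y b = z)).card •
          (q (z : ZMod 33) / cnt X Y n z) = q (z : ZMod 33) := by
      intro z hz
      obtain ⟨b, _, rfl⟩ := Finset.mem_image.1 hz
      have hc : (0 : ℝ) < cnt X Y n (h X Y b) := by exact_mod_cast cnt_pos X Y n b
      have : (Finset.univ.filter (fun b' : B n × B n => h X Y b' = h X Y b)).card =
        cnt X Y n (h X Y b) := rfl
      rw [this, nsmul_eq_mul]
      field_simp
    rw [Finset.sum_congr rfl h3]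
    rw [← Finset.sum_fiberwise (s := Finset.univ.image (fun b : B n × B n => h X Y b))
      (g := fun z : ℤ => (z : ZMod 33)) (f := fun z : ℤ => q (z : ZMod 33))]
    have h4 : ∀ ρ ∈ (Finset.univ : Finset (ZMod 33)),
        ∑ z ∈ (Finset.univ.image (fun b : B n × B n => h X Y b)).filter
          (fun z : ℤ => (z : ZMod 33) = ρ), q (z : ZMod 33) ≤
        (n : ℝ) ^ 2 * (k (X : ZMod 33) (Y : ZMod 33) ρ : ℝ) := by
      intro ρ _
      rw [Finset.sum_congr rfl (g := fun _ => q ρ)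
        (fun s hs => by rw [(Finset.mem_filter.1 hs).2]), Finset.sum_const, nsmul_eq_mul]
      have h5 := image_le μ x y K hK hK1 n hn ρ
      rw [← hX, ← hY] at h5
      have h6 : (((Finset.univ.image (fun b : B n × B n => h X Y b)).filter
          (fun z : ℤ => (z : ZMod 33) = ρ)).card : ℝ) ≤ n * K := by exact_mod_cast h5
      have h7 : 0 ≤ q ρ := by rw [hqd]; positivity
      calc _ ≤ (n : ℝ) * K * q ρ := mul_le_mul_of_nonneg_right h6 h7
        _ = (n : ℝ) ^ 2 * (k (X : ZMod 33) (Y : ZMod 33) ρ : ℝ) := by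
          rw [hqd]; field_simp
    refine le_trans (Finset.sum_le_sum h4) ?_
    rw [← Finset.mul_sum]
    have h8 : ∑ ρ : ZMod 33, (k (X : ZMod 33) (Y : ZMod 33) ρ : ℝ) = 121 := by
      exact_mod_cast sum_k (X : ZMod 33) (Y : ZMod 33)
    rw [h8]
    linarith
  linarith

lemma upp (a e : ℕ) (n : ℕ) :
    ∑ b : B n × B n, Real.log (cnt ((-2) ^ a) ((-2) ^ (a + e)) n
        (h ((-2) ^ a) ((-2) ^ (a + e)) b)) ≤
    (n : ℝ) ^ 2 * ∑ ρ : ZMod 33,
        (k (((-2) ^ a : ℤ) : ZMod 33) (((-2) ^ (a + e) : ℤ) : ZMod 33) ρ : ℝ) *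
        Real.log (k (((-2) ^ a : ℤ) : ZMod 33) (((-2) ^ (a + e) : ℤ) : ZMod 33) ρ) +
      (121 * n ^ 2 : ℝ) * Real.log ((n : ℝ) / 2 ^ e + 1) := by
  have e0 : (Fintype.card (B n × B n) : ℝ) = 121 * n ^ 2 := by rw [card_B2]; push_cast; ring
  rw [← sum_g _ _ n (fun ρ => Real.log
    (k (((-2) ^ a : ℤ) : ZMod 33) (((-2) ^ (a + e) : ℤ) : ZMod 33) ρ)), ← e0]
  have : (Fintype.card (B n × B n) : ℝ) * Real.log ((n : ℝ) / 2 ^ e + 1) =
      ∑ _b : B n × B n, Real.log ((n : ℝ) / 2 ^ e + 1) := by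
    rw [Finset.sum_const, Finset.card_univ, nsmul_eq_mul]
  rw [this, ← Finset.sum_add_distrib]
  refine Finset.sum_le_sum (fun b _ => ?_)
  have hk : (0 : ℝ) < k (((-2) ^ a : ℤ) : ZMod 33) (((-2) ^ (a + e) : ℤ) : ZMod 33)
      ((h ((-2) ^ a) ((-2) ^ (a + e)) b : ℤ) : ZMod 33) := by
    exact_mod_cast k_pos _ _ n b
  have hc : (0 : ℝ) < cnt ((-2) ^ a) ((-2) ^ (a + e)) n (h ((-2) ^ a) ((-2) ^ (a + e)) b) := by
    exact_mod_cast cnt_pos _ _ n b
  rw [← Real.log_mul hk.ne' (by positivity)]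
  apply Real.log_le_log hc
  have h1 := cnt_le a e n (h ((-2) ^ a) ((-2) ^ (a + e)) b)
  have h2 : ((n / 2 ^ e : ℕ) : ℝ) ≤ (n : ℝ) / 2 ^ e := by
    have := @Nat.cast_div_le ℝ _ _ _ n (2 ^ e)
    push_cast at this
    exact this
  have h3 : (cnt ((-2) ^ a) ((-2) ^ (a + e)) n (h ((-2) ^ a) ((-2) ^ (a + e)) b) : ℝ) ≤
      (k (((-2) ^ a : ℤ) : ZMod 33) (((-2) ^ (a + e) : ℤ) : ZMod 33)
      ((h ((-2) ^ a) ((-2) ^ (a + e)) b : ℤ) : ZMod 33) : ℝ) * (((n / 2 ^ e : ℕ) : ℝ) + 1) := by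
    exact_mod_cast h1
  refine le_trans h3 ?_
  exact mul_le_mul_of_nonneg_left (by linarith) hk.le

end Pool.Agent.N766.FD
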