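import Mathlib

set_option autoImplicit false

/-!
From an inequality between the logarithmic energies of a finite set `S` for `S + S` and `S + 2·S`
to a fractional dilate `l · 1_S` with `‖α + 2·α‖ < ‖α + α‖`.
-/

namespace Pool.Agent.N766.FD

open scoped ENNReal

/-- inner sum `∑_{j + c k = i} α(j) α(k)` -/
noncomputable def conv (c : ℤ) (α : ℤ → ℝ) (i : ℤ) : ℝ≥0∞ :=
  ∑' k : ℤ, ENNReal.ofReal (α (i - c * k) * α k)

/-- `inf_{0<p<1} ∑_i (∑_{j + c k = i} α(j) α(k))^p` -/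
noncomputable def nrm (c : ℤ) (α : ℤ → ℝ) : ℝ≥0∞ :=
  ⨅ p ∈ Set.Ioo (0 : ℝ) 1, ∑' i : ℤ, (conv c α i) ^ p

/-- number of representations -/
def rep (c : ℤ) (S : Finset ℤ) (y : ℤ) : ℕ := ((S ×ˢ S).filter (fun x => x.1 + c * x.2 = y)).card

/-- the scaled indicator function -/
noncomputable def ind (l : ℝ) (S : Finset ℤ) (i : ℤ) : ℝ := if i ∈ S then l else 0

lemma conv_ind (c : ℤ) (l : ℝ) (hl : 0 ≤ l) (S : Finset ℤ) (i : ℤ) :
    conv c (ind l S) i = ENNReal.ofReal (l ^ 2 * rep c S i) := by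
  unfold conv
  rw [tsum_eq_sum (s := S)]
  · rw [← ENNReal.ofReal_sum_of_nonneg]
    · congr 1
      have h1 : ∀ k ∈ S, ind l S (i - c * k) * ind l S k = if i - c * k ∈ S then l ^ 2 else 0 := by
        intro k hk
        unfold ind
        rw [if_pos hk]
        split_ifs <;> ring
      rw [Finset.sum_congr rfl h1, ← Finset.sum_filter, Finset.sum_const, nsmul_eq_mul, mul_comm]
      congr 2
      unfold rep
      refine Finset.card_nbij' (fun k => (i - c * k, k)) (fun x => x.2) ?_ ?_ ?_ ?_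
      · intro k hk
        simp only [Finset.coe_filter, Set.mem_setOf_eq, Finset.mem_product] at hk ⊢
        exact ⟨⟨hk.2, hk.1⟩, by ring⟩
      · intro x hx
        simp only [Finset.coe_filter, Set.mem_setOf_eq, Finset.mem_product] at hx ⊢
        refine ⟨hx.1.2, ?_⟩
        have : i - c * x.2 = x.1 := by rw [← hx.2]; ring
        rw [this]; exact hx.1.1
      · intro k _; rfl
      · intro x hx
        simp only [Finset.coe_filter, Set.mem_setOf_eq, Finset.mem_product] at hx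
        have : i - c * x.2 = x.1 := by rw [← hx.2]; ring
        ext <;> simp [this]
    · intro k _
      unfold ind
      split_ifs <;> positivity
  · intro k hk
    unfold ind
    rw [if_neg hk]
    simp

/-- the sum over pairs which gives `∑_i (...)^p` -/
noncomputable def FF (c : ℤ) (l : ℝ) (S : Finset ℤ) (q : ℝ) : ℝ :=
  ∑ x ∈ S ×ˢ S, l ^ 2 * Real.exp (-(q * Real.log (l ^ 2 * rep c S (x.1 + c * x.2))))

lemma rep_pos (c : ℤ) (S : Finset ℤ) (x : ℤ × ℤ) (hx : x ∈ S ×ˢ S) :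
    0 < rep c S (x.1 + c * x.2) := by
  unfold rep
  exact Finset.card_pos.2 ⟨x, Finset.mem_filter.2 ⟨hx, rfl⟩⟩

lemma sum_conv (c : ℤ) (l : ℝ) (hl : 0 < l) (S : Finset ℤ) (p : ℝ) (hp : 0 < p) :
    ∑' i : ℤ, (conv c (ind l S) i) ^ p = ENNReal.ofReal (FF c l S (1 - p)) := by
  rw [tsum_eq_sum (s := (S ×ˢ S).image (fun x => x.1 + c * x.2))]
  · have h1 : ∀ i ∈ (S ×ˢ S).image (fun x => x.1 + c * x.2),
        (conv c (ind l S) i) ^ p = ENNReal.ofReal (rep c S i *
          (l ^ 2 * Real.exp (-((1 - p) * Real.log (l ^ 2 * rep c S i))))) := by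
      intro i hi
      obtain ⟨x, hx, rfl⟩ := Finset.mem_image.1 hi
      have hr : (0 : ℝ) < rep c S (x.1 + c * x.2) := by exact_mod_cast rep_pos c S x hx
      have hpos : 0 < l ^ 2 * (rep c S (x.1 + c * x.2) : ℝ) := by positivity
      rw [conv_ind c l hl.le, ENNReal.ofReal_rpow_of_pos hpos]
      congr 1
      rw [Real.rpow_def_of_pos hpos]
      have e1 : (rep c S (x.1 + c * x.2) : ℝ) * (l ^ 2 *
          Real.exp (-((1 - p) * Real.log (l ^ 2 * rep c S (x.1 + c * x.2))))) =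
          Real.exp (Real.log (l ^ 2 * rep c S (x.1 + c * x.2))) *
          Real.exp (-((1 - p) * Real.log (l ^ 2 * rep c S (x.1 + c * x.2)))) := by
        rw [Real.exp_log hpos]; ring
      rw [e1, ← Real.exp_add]
      congr 1
      ring
    rw [Finset.sum_congr rfl h1, ← ENNReal.ofReal_sum_of_nonneg]
    · congr 1
      unfold FF
      rw [Finset.sum_comp (fun y : ℤ => l ^ 2 * Real.exp (-((1 - p) * Real.log (l ^ 2 * rep c S y))))
        (fun x : ℤ × ℤ => x.1 + c * x.2)]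
      refine Finset.sum_congr rfl (fun y _ => ?_)
      rw [nsmul_eq_mul]
      rfl
    · intro i _
      positivity
  · intro i hi
    rw [conv_ind c l hl.le]
    have : rep c S i = 0 := by
      unfold rep
      rw [Finset.card_eq_zero, Finset.filter_eq_empty_iff]
      intro x hx hxi
      exact hi (Finset.mem_image.2 ⟨x, hx, hxi⟩)
    rw [this]
    simp [ENNReal.zero_rpow_of_pos hp]

/-- logarithmic energy -/
noncomputable def LE (c : ℤ) (S : Finset ℤ) : ℝ :=
  ∑ x ∈ S ×ˢ S, Real.log (rep c S (x.1 + c * x.2))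

theorem partA' (S : Finset ℤ) (hS : S.Nonempty) (h : LE 1 S < LE 2 S) :
    ∃ l : ℝ, 0 < l ∧ l ≤ 1 ∧ l ^ 2 = Real.exp (-(LE 1 S / ((S ×ˢ S).card : ℝ))) ∧
      (∀ p ∈ Set.Ioo (0 : ℝ) 1, l ^ 2 * ((S ×ˢ S).card : ℝ) ≤ FF 1 l S (1 - p)) ∧
      ∃ q : ℝ, 0 < q ∧ q < 1 ∧ FF 2 l S q < l ^ 2 * ((S ×ˢ S).card : ℝ) := by
  set K : ℝ := ((S ×ˢ S).card : ℝ) with hK
  have hKpos : 0 < K := by
    rw [hK]
    exact_mod_cast Finset.card_pos.2 (Finset.Nonempty.product hS hS)
  set a : ℝ := LE 1 S / K with ha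
  have hLE1 : 0 ≤ LE 1 S := by
    unfold LE
    refine Finset.sum_nonneg (fun x hx => ?_)
    apply Real.log_nonneg
    exact_mod_cast rep_pos 1 S x hx
  have ha0 : 0 ≤ a := div_nonneg hLE1 hKpos.le
  set l : ℝ := Real.exp (-a / 2) with hl
  have hlpos : 0 < l := Real.exp_pos _
  have hl1 : l ≤ 1 := by
    rw [hl]
    apply Real.exp_le_one_iff.2
    linarith
  have hl2 : l ^ 2 = Real.exp (-a) := by
    rw [hl, ← Real.exp_nat_mul]
    congr 1
    push_cast
    ring
  have hlog : ∀ c : ℤ, ∀ x ∈ S ×ˢ S, Real.log (l ^ 2 * rep c S (x.1 + c * x.2)) =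
      -a + Real.log (rep c S (x.1 + c * x.2)) := by
    intro c x hx
    have hr : (0 : ℝ) < rep c S (x.1 + c * x.2) := by exact_mod_cast rep_pos c S x hx
    rw [Real.log_mul (by positivity) hr.ne', hl2, Real.log_exp]
  have hsum : ∀ c : ℤ, ∑ x ∈ S ×ˢ S, Real.log (l ^ 2 * rep c S (x.1 + c * x.2)) =
      -a * K + LE c S := by
    intro c
    rw [Finset.sum_congr rfl (hlog c), Finset.sum_add_distrib, Finset.sum_const, nsmul_eq_mul]
    unfold LE
    ring
  refine ⟨l, hlpos, hl1, hl2, ?_, ?_⟩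
  · intro p hp
    unfold FF
    have h1 : ∑ x ∈ S ×ˢ S, l ^ 2 * (1 + -((1 - p) * Real.log (l ^ 2 * rep 1 S (x.1 + 1 * x.2)))) ≤
        ∑ x ∈ S ×ˢ S, l ^ 2 * Real.exp (-((1 - p) * Real.log (l ^ 2 * rep 1 S (x.1 + 1 * x.2)))) := by
      refine Finset.sum_le_sum (fun x _ => ?_)
      refine mul_le_mul_of_nonneg_left ?_ (by positivity)
      have := Real.add_one_le_exp (-((1 - p) * Real.log (l ^ 2 * rep 1 S (x.1 + 1 * x.2))))
      linarith
    refine le_trans (le_of_eq ?_) h1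
    rw [← Finset.mul_sum, Finset.sum_add_distrib, Finset.sum_neg_distrib, ← Finset.mul_sum, hsum 1,
      Finset.sum_const, nsmul_eq_mul]
    have : a * K = LE 1 S := by rw [ha]; field_simp
    have h2 : -a * K + LE 1 S = 0 := by linarith
    rw [h2]
    ring
  -- upper bound for c = 2
  set D : ℝ := -a * K + LE 2 S with hD
  have hDpos : 0 < D := by
    have : a * K = LE 1 S := by rw [ha]; field_simp
    rw [hD]; linarith
  set y : ℤ × ℤ → ℝ := fun x => Real.log (l ^ 2 * rep 2 S (x.1 + 2 * x.2)) with hy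
  set Y : ℝ := 1 + ∑ x ∈ S ×ˢ S, y x ^ 2 with hY
  have hYs : 0 ≤ ∑ x ∈ S ×ˢ S, y x ^ 2 := Finset.sum_nonneg (fun x _ => sq_nonneg _)
  have hY1 : 1 ≤ Y := by rw [hY]; linarith
  have hyY : ∀ x ∈ S ×ˢ S, |y x| ≤ Y := by
    intro x hx
    have h1 : y x ^ 2 ≤ ∑ x ∈ S ×ˢ S, y x ^ 2 :=
      Finset.single_le_sum (f := fun x => y x ^ 2) (fun x _ => sq_nonneg _) hx
    have h2 : |y x| ^ 2 ≤ Y - 1 := by rw [sq_abs]; rw [hY]; linarith
    nlinarith [abs_nonneg (y x)]
  set q : ℝ := min 1 D / (2 * Y) with hq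
  have hm : 0 < min 1 D := lt_min one_pos hDpos
  have hqpos : 0 < q := by rw [hq]; positivity
  have hq1 : q ≤ 1 / 2 := by
    rw [hq, div_le_div_iff₀ (by positivity) (by norm_num)]
    have := min_le_left 1 D
    nlinarith
  have hup : FF 2 l S q < l ^ 2 * K := by
    unfold FF
    have h1 : ∑ x ∈ S ×ˢ S, l ^ 2 * Real.exp (-(q * Real.log (l ^ 2 * rep 2 S (x.1 + 2 * x.2)))) ≤
        ∑ x ∈ S ×ˢ S, l ^ 2 * (1 - q * y x + q ^ 2 * y x ^ 2) := by
      refine Finset.sum_le_sum (fun x hx => ?_)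
      refine mul_le_mul_of_nonneg_left ?_ (by positivity)
      have hb : |-(q * y x)| ≤ 1 := by
        rw [abs_neg, abs_mul, abs_of_pos hqpos]
        have h3 := hyY x hx
        have h4 : q * Y ≤ 1 / 2 := by
          rw [hq]
          have : min 1 D / (2 * Y) * Y = min 1 D / 2 := by field_simp
          rw [this]
          have := min_le_left 1 D
          linarith
        nlinarith [abs_nonneg (y x)]
      have h5 := Real.abs_exp_sub_one_sub_id_le hb
      have h6 := (abs_le.1 h5).2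
      have h7 : Real.exp (-(q * y x)) ≤ 1 - q * y x + q ^ 2 * y x ^ 2 := by
        nlinarith
      exact h7
    refine lt_of_le_of_lt h1 ?_
    rw [← Finset.mul_sum, Finset.sum_add_distrib, Finset.sum_sub_distrib, ← Finset.mul_sum,
      ← Finset.mul_sum, Finset.sum_const, nsmul_eq_mul]
    refine mul_lt_mul_of_pos_left ?_ (by positivity)
    have h2 : ∑ x ∈ S ×ˢ S, y x = D := by rw [hD]; exact hsum 2
    rw [h2]
    have h3 : q ^ 2 * ∑ x ∈ S ×ˢ S, y x ^ 2 < q * D := by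
      have h4 : q * Y = min 1 D / 2 := by rw [hq]; field_simp
      have h5 : q ^ 2 * ∑ x ∈ S ×ˢ S, y x ^ 2 ≤ q * (q * Y) := by
        rw [hY]; nlinarith
      have h6 := min_le_right 1 D
      rw [h4] at h5
      nlinarith
    rw [← hK]
    linarith
  exact ⟨q, hqpos, by linarith, hup⟩

theorem partA (S : Finset ℤ) (hS : S.Nonempty) (h : LE 1 S < LE 2 S) :
    ∃ l : ℝ, 0 < l ∧ l ≤ 1 ∧ nrm 2 (ind l S) < nrm 1 (ind l S) := by
  obtain ⟨l, hlpos, hl1, _, hlow, q, hq0, hq1, hup⟩ := partA' S hS h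
  refine ⟨l, hlpos, hl1, ?_⟩
  have h1 : ENNReal.ofReal (l ^ 2 * ((S ×ˢ S).card : ℝ)) ≤ nrm 1 (ind l S) := by
    unfold nrm
    refine le_iInf₂ (fun p hp => ?_)
    rw [sum_conv 1 l hlpos S p hp.1]
    exact ENNReal.ofReal_le_ofReal (hlow p hp)
  have h2 : nrm 2 (ind l S) ≤ ENNReal.ofReal (FF 2 l S q) := by
    unfold nrm
    refine iInf₂_le_of_le (1 - q) ⟨by linarith, by linarith⟩ ?_
    rw [sum_conv 2 l hlpos S (1 - q) (by linarith)]
    rw [sub_sub_cancel]
  refine lt_of_le_of_lt h2 (lt_of_lt_of_le ?_ h1)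
  have hKpos : (0 : ℝ) < ((S ×ˢ S).card : ℝ) := by
    exact_mod_cast Finset.card_pos.2 (Finset.Nonempty.product hS hS)
  rw [ENNReal.ofReal_lt_ofReal_iff (by positivity)]
  exact hup

end Pool.Agent.N766.FD
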