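import Pool.Agent.N766.FD.Gamma
import Pool.Agent.N766.FD.PartA

set_option autoImplicit false

namespace Pool.Agent.N766.FD

/-- index type of the final set -/
abbrev Om (N n r : ℕ) := Fin N × (Fin r → B n)

/-- the vector attached to an index -/
def bv {N n r : ℕ} (p : Om N n r) : ℤ × (Fin r → ℤ) :=
  (4 ^ (p.1 : ℕ), fun i => (-2) ^ (p.1 : ℕ) * yv (p.2 i))

/-- the combination `p + c q` of the vectors -/
def cv (c : ℤ) {N n r : ℕ} (p q : Om N n r) : ℤ × (Fin r → ℤ) :=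
  (4 ^ (p.1 : ℕ) + c * 4 ^ (q.1 : ℕ),
    fun i => (-2) ^ (p.1 : ℕ) * yv (p.2 i) + c * ((-2) ^ (q.1 : ℕ) * yv (q.2 i)))

/-- evaluation at `D` -/
def ph (D : ℤ) {r : ℕ} (f : ℤ × (Fin r → ℤ)) : ℤ := f.1 + ∑ i, f.2 i * D ^ ((i : ℕ) + 1)

lemma ph_cv (D c : ℤ) {N n r : ℕ} (p q : Om N n r) :
    ph D (cv c p q) = ph D (bv p) + c * ph D (bv q) := by
  unfold ph cv bv
  simp only
  rw [mul_add, Finset.mul_sum]
  have : ∀ i : Fin r, ((-2) ^ (p.1 : ℕ) * yv (p.2 i) + c * ((-2) ^ (q.1 : ℕ) * yv (q.2 i))) *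
      D ^ ((i : ℕ) + 1) = (-2) ^ (p.1 : ℕ) * yv (p.2 i) * D ^ ((i : ℕ) + 1) +
      c * ((-2) ^ (q.1 : ℕ) * yv (q.2 i) * D ^ ((i : ℕ) + 1)) := fun i => by ring
  rw [Finset.sum_congr rfl (fun i _ => this i), Finset.sum_add_distrib]
  ring

open Polynomial in
/-- the polynomial of a vector -/
noncomputable def pol {r : ℕ} (f : ℤ × (Fin r → ℤ)) : ℤ[X] :=
  C f.1 + ∑ i : Fin r, C (f.2 i) * X ^ ((i : ℕ) + 1)

lemma eval_pol (D : ℤ) {r : ℕ} (f : ℤ × (Fin r → ℤ)) : (pol f).eval D = ph D f := by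
  unfold pol ph
  simp [Polynomial.eval_finset_sum]

lemma pol_inj {r : ℕ} (f g : ℤ × (Fin r → ℤ)) (hfg : pol f = pol g) : f = g := by
  have h0 : ∀ f : ℤ × (Fin r → ℤ), (pol f).coeff 0 = f.1 := by
    intro f
    unfold pol
    rw [Polynomial.coeff_add, Polynomial.coeff_C_zero, Polynomial.finset_sum_coeff]
    rw [Finset.sum_eq_zero]
    · simp
    · intro i _
      rw [Polynomial.coeff_C_mul_X_pow, if_neg (by omega)]
  have h1 : ∀ (f : ℤ × (Fin r → ℤ)) (i : Fin r), (pol f).coeff ((i : ℕ) + 1) = f.2 i := by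
    intro f i
    unfold pol
    rw [Polynomial.coeff_add, Polynomial.coeff_C, if_neg (by omega), Polynomial.finset_sum_coeff,
      Finset.sum_eq_single i]
    · rw [Polynomial.coeff_C_mul_X_pow, if_pos rfl, zero_add]
    · intro j _ hj
      rw [Polynomial.coeff_C_mul_X_pow, if_neg]
      intro h
      exact hj (Fin.ext (by omega))
    · intro h
      exact absurd (Finset.mem_univ _) h
  refine Prod.ext ?_ (funext fun i => ?_)
  · rw [← h0 f, ← h0 g, hfg]
  · rw [← h1 f i, ← h1 g i, hfg]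

lemma exists_D {r : ℕ} (F : Finset (ℤ × (Fin r → ℤ))) :
    ∃ D : ℤ, ∀ f ∈ F, ∀ g ∈ F, ph D f = ph D g → f = g := by
  classical
  set Q : Polynomial ℤ := ∏ f ∈ F, ∏ g ∈ F, if f = g then 1 else (pol f - pol g) with hQ
  have hQ0 : Q ≠ 0 := by
    rw [hQ, Finset.prod_ne_zero_iff]
    intro f _
    rw [Finset.prod_ne_zero_iff]
    intro g _
    split_ifs with h
    · exact one_ne_zero
    · intro h2
      exact h (pol_inj f g (sub_eq_zero.1 h2))
  obtain ⟨D, hD⟩ : ∃ D : ℤ, Q.eval D ≠ 0 := by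
    by_contra hcon
    push Not at hcon
    exact hQ0 (Polynomial.funext (fun r => by rw [hcon r, Polynomial.eval_zero]))
  refine ⟨D, fun f hf g hg hfg => ?_⟩
  by_contra hne
  apply hD
  rw [hQ, Polynomial.eval_prod]
  refine Finset.prod_eq_zero hf ?_
  rw [Polynomial.eval_prod]
  refine Finset.prod_eq_zero hg ?_
  rw [if_neg hne, Polynomial.eval_sub, eval_pol, eval_pol, hfg, sub_self]

lemma bv_inj {N n r : ℕ} (p q : Om N n r) (hpq : bv p = bv q) : p = q := by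
  unfold bv at hpq
  simp only [Prod.mk.injEq] at hpq
  obtain ⟨h1, h2⟩ := hpq
  have h3 : (p.1 : ℕ) = (q.1 : ℕ) := by
    have h4 : (4 : ℕ) ^ (p.1 : ℕ) = 4 ^ (q.1 : ℕ) := by exact_mod_cast h1
    exact Nat.pow_right_injective (le_refl 2 |>.trans (by norm_num)) h4
  refine Prod.ext (Fin.ext h3) (funext fun i => ?_)
  have h5 := congrFun h2 i
  simp only [h3] at h5
  have h6 : ((-2 : ℤ) ^ (q.1 : ℕ)) ≠ 0 := by positivity
  exact yv_inj _ _ (mul_left_cancel₀ h6 h5)

/-- number of pairs with the same combination -/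
def RR (c : ℤ) {N n r : ℕ} (p q : Om N n r) : ℕ :=
  (Finset.univ.filter (fun x : Om N n r × Om N n r => cv c x.1 x.2 = cv c p q)).card

lemma RR_pos (c : ℤ) {N n r : ℕ} (p q : Om N n r) : 0 < RR c p q :=
  Finset.card_pos.2 ⟨(p, q), Finset.mem_filter.2 ⟨Finset.mem_univ _, rfl⟩⟩

lemma exists_set (N n r : ℕ) : ∃ X : Om N n r → ℤ, Function.Injective X ∧
    ∀ c : ℤ, c = 1 ∨ c = 2 →
      LE c (Finset.univ.image X) = ∑ x : Om N n r × Om N n r, Real.log (RR c x.1 x.2) := by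
  classical
  set F : Finset (ℤ × (Fin r → ℤ)) :=
    (Finset.univ.image (fun p : Om N n r => bv p)) ∪
    ((Finset.univ.image (fun x : Om N n r × Om N n r => cv 1 x.1 x.2)) ∪
    (Finset.univ.image (fun x : Om N n r × Om N n r => cv 2 x.1 x.2))) with hF
  obtain ⟨D, hD⟩ := exists_D F
  have hinj : Function.Injective (fun p : Om N n r => ph D (bv p)) := by
    intro p q hpq
    refine bv_inj p q (hD _ ?_ _ ?_ hpq)
    · rw [hF]; exact Finset.mem_union_left _ (Finset.mem_image_of_mem _ (Finset.mem_univ _))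
    · rw [hF]; exact Finset.mem_union_left _ (Finset.mem_image_of_mem _ (Finset.mem_univ _))
  refine ⟨fun p => ph D (bv p), hinj, ?_⟩
  intro c hc
  have hmem : ∀ p q : Om N n r, cv c p q ∈ F := by
    intro p q
    rw [hF]
    rcases hc with rfl | rfl
    · exact Finset.mem_union_right _ (Finset.mem_union_left _
        (Finset.mem_image.2 ⟨(p, q), Finset.mem_univ _, rfl⟩))
    · exact Finset.mem_union_right _ (Finset.mem_union_right _
        (Finset.mem_image.2 ⟨(p, q), Finset.mem_univ _, rfl⟩))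
  have hrep : ∀ p q : Om N n r, rep c (Finset.univ.image (fun p : Om N n r => ph D (bv p)))
      (ph D (bv p) + c * ph D (bv q)) = RR c p q := by
    intro p q
    unfold rep RR
    symm
    refine Finset.card_bij (fun x _ => (ph D (bv x.1), ph D (bv x.2))) ?_ ?_ ?_
    · intro x hx
      have h1 := (Finset.mem_filter.1 hx).2
      refine Finset.mem_filter.2 ⟨Finset.mem_product.2 ⟨Finset.mem_image.2 ⟨x.1, Finset.mem_univ _, rfl⟩,
        Finset.mem_image.2 ⟨x.2, Finset.mem_univ _, rfl⟩⟩, ?_⟩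
      rw [← ph_cv, ← ph_cv, h1]
    · intro x _ y _ hxy
      simp only [Prod.mk.injEq] at hxy
      exact Prod.ext (hinj hxy.1) (hinj hxy.2)
    · intro s hs
      obtain ⟨h1, h2⟩ := Finset.mem_filter.1 hs
      obtain ⟨h3, h4⟩ := Finset.mem_product.1 h1
      obtain ⟨a, _, ha⟩ := Finset.mem_image.1 h3
      obtain ⟨b, _, hb⟩ := Finset.mem_image.1 h4
      refine ⟨(a, b), Finset.mem_filter.2 ⟨Finset.mem_univ _, ?_⟩, Prod.ext ha hb⟩
      refine hD _ (hmem _ _) _ (hmem _ _) ?_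
      rw [ph_cv, ph_cv, ha, hb]
      exact h2
  have hR : ∑ x : Om N n r × Om N n r, Real.log (RR c x.1 x.2) =
      ∑ p : Om N n r, ∑ q : Om N n r, Real.log (RR c p q) := Fintype.sum_prod_type _
  rw [hR]
  unfold LE
  rw [Finset.sum_product, Finset.sum_image (fun a _ b _ hab => hinj hab)]
  refine Finset.sum_congr rfl (fun p _ => ?_)
  rw [Finset.sum_image (fun a _ b _ hab => hinj hab)]
  refine Finset.sum_congr rfl (fun q _ => ?_)
  simp only
  rw [hrep]

/-- embedding of a block -/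
def io {N n r : ℕ} (a b : Fin N) (w : Fin r → B n × B n) : Om N n r × Om N n r :=
  ((a, fun i => (w i).1), (b, fun i => (w i).2))

lemma io_inj {N n r : ℕ} (a b : Fin N) : Function.Injective (io (r := r) (n := n) a b) := by
  intro w w' hw
  unfold io at hw
  simp only [Prod.mk.injEq, true_and] at hw
  funext i
  exact Prod.ext (congrFun hw.1 i) (congrFun hw.2 i)

lemma RR2_ge {N n r : ℕ} (p q : Om N n r) :
    ∏ i, cnt ((-2) ^ (p.1 : ℕ)) (2 * (-2) ^ (q.1 : ℕ)) n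
      (h ((-2) ^ (p.1 : ℕ)) (2 * (-2) ^ (q.1 : ℕ)) (p.2 i, q.2 i)) ≤ RR 2 p q := by
  classical
  unfold RR cnt
  rw [← Fintype.card_piFinset, ← Finset.card_image_of_injective _ (io_inj p.1 q.1)]
  refine Finset.card_le_card ?_
  intro x hx
  obtain ⟨w, hw, rfl⟩ := Finset.mem_image.1 hx
  rw [Fintype.mem_piFinset] at hw
  refine Finset.mem_filter.2 ⟨Finset.mem_univ _, ?_⟩
  unfold cv io
  simp only [Prod.mk.injEq, true_and]
  funext i
  have := (Finset.mem_filter.1 (hw i)).2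
  unfold h at this
  simp only at this
  linarith

lemma pow4 (a b c d : ℕ) (hs : (4 : ℕ) ^ a + 4 ^ b = 4 ^ c + 4 ^ d) :
    (a = c ∧ b = d) ∨ (a = d ∧ b = c) := by
  have key : ∀ a b c d : ℕ, a ≤ b → c ≤ d → (4 : ℕ) ^ a + 4 ^ b = 4 ^ c + 4 ^ d → a = c ∧ b = d := by
    intro a b c d hab hcd hs
    have e1 : (4 : ℕ) ^ a ≤ 4 ^ b := Nat.pow_le_pow_right (by norm_num) hab
    have e2 : (4 : ℕ) ^ c ≤ 4 ^ d := Nat.pow_le_pow_right (by norm_num) hcd
    have p1 : 0 < (4 : ℕ) ^ a := by positivity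
    have p2 : 0 < (4 : ℕ) ^ c := by positivity
    have f1 : (4 : ℕ) ^ b < 4 ^ (d + 1) := by rw [pow_succ]; omega
    have f2 : (4 : ℕ) ^ d < 4 ^ (b + 1) := by rw [pow_succ]; omega
    have g1 : b < d + 1 := (Nat.pow_lt_pow_iff_right (by norm_num)).1 f1
    have g2 : d < b + 1 := (Nat.pow_lt_pow_iff_right (by norm_num)).1 f2
    have hbd : b = d := by omega
    subst hbd
    have : (4 : ℕ) ^ a = 4 ^ c := by omega
    exact ⟨Nat.pow_right_injective (by norm_num) this, rfl⟩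
  rcases le_total a b with h1 | h1 <;> rcases le_total c d with h2 | h2
  · exact Or.inl (key a b c d h1 h2 hs)
  · have := key a b d c h1 h2 (by omega)
    exact Or.inr ⟨this.1, this.2⟩
  · have := key b a c d h1 h2 (by omega)
    exact Or.inr ⟨this.2, this.1⟩
  · have := key b a d c h1 h2 (by omega)
    exact Or.inl ⟨this.2, this.1⟩

lemma RR1_le {N n r : ℕ} (p q : Om N n r) :
    RR 1 p q ≤ 2 * ∏ i, cnt ((-2) ^ (p.1 : ℕ)) ((-2) ^ (q.1 : ℕ)) n
      (h ((-2) ^ (p.1 : ℕ)) ((-2) ^ (q.1 : ℕ)) (p.2 i, q.2 i)) := by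
  classical
  set P1 : Finset (Fin r → B n × B n) := Fintype.piFinset (fun i => Finset.univ.filter
    (fun b : B n × B n => h ((-2) ^ (p.1 : ℕ)) ((-2) ^ (q.1 : ℕ)) b =
      h ((-2) ^ (p.1 : ℕ)) ((-2) ^ (q.1 : ℕ)) (p.2 i, q.2 i))) with hP1
  set P2 : Finset (Fin r → B n × B n) := Fintype.piFinset (fun i => Finset.univ.filter
    (fun b : B n × B n => h ((-2) ^ (q.1 : ℕ)) ((-2) ^ (p.1 : ℕ)) b =
      h ((-2) ^ (p.1 : ℕ)) ((-2) ^ (q.1 : ℕ)) (p.2 i, q.2 i))) with hP2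
  have c1 : P1.card = ∏ i, cnt ((-2) ^ (p.1 : ℕ)) ((-2) ^ (q.1 : ℕ)) n
      (h ((-2) ^ (p.1 : ℕ)) ((-2) ^ (q.1 : ℕ)) (p.2 i, q.2 i)) := by
    rw [hP1, Fintype.card_piFinset]; rfl
  have c2 : P2.card = ∏ i, cnt ((-2) ^ (p.1 : ℕ)) ((-2) ^ (q.1 : ℕ)) n
      (h ((-2) ^ (p.1 : ℕ)) ((-2) ^ (q.1 : ℕ)) (p.2 i, q.2 i)) := by
    rw [hP2, Fintype.card_piFinset]
    refine Finset.prod_congr rfl (fun i _ => ?_)
    rw [cnt_swap]
    rfl
  have hsub : (Finset.univ.filter (fun x : Om N n r × Om N n r => cv 1 x.1 x.2 = cv 1 p q)) ⊆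
      P1.image (io p.1 q.1) ∪ P2.image (io q.1 p.1) := by
    intro x hx
    have hx' := (Finset.mem_filter.1 hx).2
    unfold cv at hx'
    simp only [Prod.mk.injEq, one_mul] at hx'
    obtain ⟨h1, h2⟩ := hx'
    have h3 : (4 : ℕ) ^ (x.1.1 : ℕ) + 4 ^ (x.2.1 : ℕ) = 4 ^ (p.1 : ℕ) + 4 ^ (q.1 : ℕ) := by
      exact_mod_cast h1
    rcases pow4 _ _ _ _ h3 with ⟨h4, h5⟩ | ⟨h4, h5⟩
    · refine Finset.mem_union_left _ (Finset.mem_image.2 ⟨fun i => (x.1.2 i, x.2.2 i), ?_, ?_⟩)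
      · rw [hP1, Fintype.mem_piFinset]
        intro i
        refine Finset.mem_filter.2 ⟨Finset.mem_univ _, ?_⟩
        have := congrFun h2 i
        rw [h4, h5] at this
        unfold h
        simp only
        linarith
      · unfold io
        exact Prod.ext (Prod.ext (Fin.ext h4.symm) rfl) (Prod.ext (Fin.ext h5.symm) rfl)
    · refine Finset.mem_union_right _ (Finset.mem_image.2 ⟨fun i => (x.1.2 i, x.2.2 i), ?_, ?_⟩)
      · rw [hP2, Fintype.mem_piFinset]
        intro i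
        refine Finset.mem_filter.2 ⟨Finset.mem_univ _, ?_⟩
        have := congrFun h2 i
        rw [h4, h5] at this
        unfold h
        simp only
        linarith
      · unfold io
        exact Prod.ext (Prod.ext (Fin.ext h4.symm) rfl) (Prod.ext (Fin.ext h5.symm) rfl)
  have h1 := Finset.card_le_card hsub
  have h2 := Finset.card_union_le (P1.image (io p.1 q.1)) (P2.image (io q.1 p.1))
  have h3 := Finset.card_image_le (s := P1) (f := io (N := N) p.1 q.1)
  have h4 := Finset.card_image_le (s := P2) (f := io (N := N) q.1 p.1)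
  unfold RR
  rw [c1] at h3
  rw [c2] at h4
  omega

/-- regrouping of pairs -/
def eqv (N n r : ℕ) : Om N n r × Om N n r ≃ (Fin N × Fin N) × (Fin r → B n × B n) where
  toFun x := ((x.1.1, x.2.1), fun i => (x.1.2 i, x.2.2 i))
  invFun y := ((y.1.1, fun i => (y.2 i).1), (y.1.2, fun i => (y.2 i).2))
  left_inv _ := rfl
  right_inv _ := rfl

lemma sum_one {β : Type} [Fintype β] (r : ℕ) (g : β → ℝ) (i : Fin (r + 1)) :
    ∑ w : Fin (r + 1) → β, g (w i) = (Fintype.card β : ℝ) ^ r * ∑ b, g b := by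
  rw [← Fintype.sum_equiv (Fin.insertNthEquiv (fun _ => β) i) (fun x => g x.1) (fun w => g (w i))]
  · rw [Fintype.sum_prod_type]
    simp only [Finset.sum_const, Finset.card_univ, nsmul_eq_mul, ← Finset.mul_sum]
    rw [Fintype.card_fun, Fintype.card_fin]
    push_cast
    ring
  · intro x
    simp [Fin.insertNthEquiv]

lemma sum_pi {β : Type} [Fintype β] (r : ℕ) (g : β → ℝ) :
    ∑ w : Fin (r + 1) → β, ∑ i, g (w i) =
      ((r : ℝ) + 1) * (Fintype.card β : ℝ) ^ r * ∑ b, g b := by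
  rw [Finset.sum_comm, Finset.sum_congr rfl (fun i _ => sum_one r g i), Finset.sum_const,
    Finset.card_univ, Fintype.card_fin, nsmul_eq_mul]
  push_cast
  ring

end Pool.Agent.N766.FD
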