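import Pool.Agent.N766.FD.Final
import Pool.Agent.Results.MP_0d5181_co.FractionalDilates

set_option autoImplicit false

namespace Pool.Agent.N766.FD

open Pool.Agent.Results.MP_0d5181_co.FractionalDilates

lemma dil_ind (c : ℤ) (l : ℝ) (S : Finset ℤ) (n : ℤ) :
    dil (ind l S) c n = l ^ 2 * rep c S n := by
  unfold dil
  rw [finsum_eq_sum_of_support_subset (s := S ×ˢ S)]
  · have h1 : ∀ p ∈ S ×ˢ S, (if p.1 + c * p.2 = n then ind l S p.1 * ind l S p.2 else 0) =
        if p.1 + c * p.2 = n then l ^ 2 else 0 := by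
      intro p hp
      obtain ⟨h1, h2⟩ := Finset.mem_product.1 hp
      unfold ind
      rw [if_pos h1, if_pos h2]
      split_ifs <;> ring
    rw [Finset.sum_congr rfl h1, ← Finset.sum_filter, Finset.sum_const, nsmul_eq_mul, mul_comm]
    rfl
  · intro p hp
    rw [Function.mem_support] at hp
    have h1 : ind l S p.1 * ind l S p.2 ≠ 0 := by
      intro h
      apply hp
      split_ifs <;> simp [h]
    have h2 : p.1 ∈ S := by
      by_contra hcon
      apply left_ne_zero_of_mul h1
      unfold ind; rw [if_neg hcon]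
    have h3 : p.2 ∈ S := by
      by_contra hcon
      apply right_ne_zero_of_mul h1
      unfold ind; rw [if_neg hcon]
    exact Finset.mem_coe.2 (Finset.mem_product.2 ⟨h2, h3⟩)

lemma fsum_dil (c : ℤ) (l : ℝ) (hl : 0 < l) (S : Finset ℤ) (p : ℝ) (hp : 0 < p) :
    ∑ᶠ n : ℤ, (dil (ind l S) c n) ^ p = FF c l S (1 - p) := by
  rw [finsum_eq_sum_of_support_subset (s := (S ×ˢ S).image (fun x => x.1 + c * x.2))]
  · have h1 : ∀ i ∈ (S ×ˢ S).image (fun x => x.1 + c * x.2),
        (dil (ind l S) c i) ^ p = rep c S i *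
          (l ^ 2 * Real.exp (-((1 - p) * Real.log (l ^ 2 * rep c S i)))) := by
      intro i hi
      obtain ⟨x, hx, rfl⟩ := Finset.mem_image.1 hi
      have hr : (0 : ℝ) < rep c S (x.1 + c * x.2) := by exact_mod_cast rep_pos c S x hx
      have hpos : 0 < l ^ 2 * (rep c S (x.1 + c * x.2) : ℝ) := by positivity
      rw [dil_ind, Real.rpow_def_of_pos hpos]
      have e1 : (rep c S (x.1 + c * x.2) : ℝ) * (l ^ 2 *
          Real.exp (-((1 - p) * Real.log (l ^ 2 * rep c S (x.1 + c * x.2))))) =
          Real.exp (Real.log (l ^ 2 * rep c S (x.1 + c * x.2))) *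
          Real.exp (-((1 - p) * Real.log (l ^ 2 * rep c S (x.1 + c * x.2)))) := by
        rw [Real.exp_log hpos]; ring
      rw [e1, ← Real.exp_add]
      congr 1
      ring
    rw [Finset.sum_congr rfl h1]
    unfold FF
    rw [Finset.sum_comp (fun y : ℤ => l ^ 2 * Real.exp (-((1 - p) * Real.log (l ^ 2 * rep c S y))))
      (fun x : ℤ × ℤ => x.1 + c * x.2)]
    refine Finset.sum_congr rfl (fun y _ => ?_)
    rw [nsmul_eq_mul]
    rfl
  · intro i hi
    rw [Function.mem_support] at hi
    by_contra hcon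
    apply hi
    rw [dil_ind]
    have : rep c S i = 0 := by
      unfold rep
      rw [Finset.card_eq_zero, Finset.filter_eq_empty_iff]
      intro x hx hxi
      exact hcon (Finset.mem_coe.2 (Finset.mem_image.2 ⟨x, hx, hxi⟩))
    rw [this]
    simp [Real.zero_rpow hp.ne']

lemma size_dil (c : ℤ) (l : ℝ) (hl : 0 < l) (S : Finset ℤ) :
    size (dil (ind l S) c) = ⨅ p : Set.Ioo (0 : ℝ) 1, FF c l S (1 - p) := by
  unfold size
  congr 1
  funext p
  exact fsum_dil c l hl S p p.2.1

lemma FF_nonneg (c : ℤ) (l : ℝ) (S : Finset ℤ) (q : ℝ) : 0 ≤ FF c l S q := by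
  unfold FF
  exact Finset.sum_nonneg (fun x _ => by positivity)

instance : Nonempty (Set.Ioo (0 : ℝ) 1) := ⟨⟨1 / 2, by norm_num, by norm_num⟩⟩

lemma rep_le (S : Finset ℤ) (c y : ℤ) (hc : c ≠ 0) : rep c S y ≤ S.card := by
  unfold rep
  refine Finset.card_le_card_of_injOn (fun x => x.1) ?_ ?_
  · intro x hx
    exact (Finset.mem_product.1 (Finset.mem_filter.1 hx).1).1
  · intro x hx z hz hxz
    have h1 := (Finset.mem_filter.1 hx).2
    have h2 := (Finset.mem_filter.1 hz).2
    simp only at hxz
    have h3 : c * x.2 = c * z.2 := by linarith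
    exact Prod.ext hxz (mul_left_cancel₀ hc h3)

/-- There is a finite set `S` of integers with `|S + 2·S| < |S + S|`. -/
theorem set_version : ∃ S : Finset ℤ, S.Nonempty ∧ (sumDil S 2).card < (sumDil S 1).card := by
  obtain ⟨S, hS, h⟩ := exists_S
  obtain ⟨l, hlpos, hl1, hK, hlow, q, hq0, hq1, hup⟩ := partA' S hS h
  have hKpos : (0 : ℝ) < ((S ×ˢ S).card : ℝ) := by
    exact_mod_cast Finset.card_pos.2 (Finset.Nonempty.product hS hS)
  -- |S| ≥ 2
  have hS2 : 2 ≤ S.card := by
    by_contra hcon
    have h1 : S.card ≤ 1 := by omega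
    have h2 : ∀ c : ℤ, c ≠ 0 → LE c S ≤ 0 := by
      intro c hc
      unfold LE
      refine Finset.sum_nonpos (fun x hx => ?_)
      apply Real.log_nonpos (Nat.cast_nonneg _)
      exact_mod_cast (rep_le S c _ hc).trans h1
    have h3 : 0 ≤ LE 1 S := by
      unfold LE
      refine Finset.sum_nonneg (fun x hx => ?_)
      apply Real.log_nonneg
      exact_mod_cast rep_pos 1 S x hx
    have h4 := h2 2 (by norm_num)
    linarith
  have hScard : (2 : ℝ) ≤ S.card := by exact_mod_cast hS2
  -- l^2 |S|^2 ≥ |S|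
  have hlS : (S.card : ℝ) ≤ l ^ 2 * ((S ×ˢ S).card : ℝ) := by
    have h1 : LE 1 S ≤ ((S ×ˢ S).card : ℝ) * Real.log S.card := by
      unfold LE
      rw [← nsmul_eq_mul, ← Finset.sum_const]
      refine Finset.sum_le_sum (fun x hx => ?_)
      apply Real.log_le_log
      · exact_mod_cast rep_pos 1 S x hx
      · exact_mod_cast rep_le S 1 _ one_ne_zero
    have h2 : LE 1 S / ((S ×ˢ S).card : ℝ) ≤ Real.log S.card := by
      rw [div_le_iff₀ hKpos]; linarith
    have h3 : (1 : ℝ) / S.card ≤ l ^ 2 := by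
      rw [hK]
      have h4 : (1 : ℝ) / S.card = Real.exp (-Real.log S.card) := by
        rw [Real.exp_neg, Real.exp_log (by linarith), one_div]
      rw [h4]
      exact Real.exp_le_exp.2 (by linarith)
    have h5 : ((S ×ˢ S).card : ℝ) = S.card * S.card := by
      rw [Finset.card_product]; push_cast; ring
    rw [h5]
    have hne : (S.card : ℝ) ≠ 0 := by linarith
    have h6 : (S.card : ℝ) = 1 / S.card * (S.card * S.card) := by
      rw [one_div, inv_mul_cancel_left₀ hne]
    calc (S.card : ℝ) = 1 / S.card * (S.card * S.card) := h6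
      _ ≤ l ^ 2 * (S.card * S.card) :=
        mul_le_mul_of_nonneg_right h3 (mul_nonneg (Nat.cast_nonneg _) (Nat.cast_nonneg _))
  have hbdd : ∀ c : ℤ, BddBelow (Set.range (fun p : Set.Ioo (0 : ℝ) 1 => FF c l S (1 - p))) :=
    fun c => ⟨0, by rintro _ ⟨p, rfl⟩; exact FF_nonneg c l S _⟩
  have s1 : l ^ 2 * ((S ×ˢ S).card : ℝ) ≤ size (dil (ind l S) 1) := by
    rw [size_dil 1 l hlpos]
    exact le_ciInf (fun p => hlow p p.2)
  have s2 : size (dil (ind l S) 2) < l ^ 2 * ((S ×ˢ S).card : ℝ) := by
    rw [size_dil 2 l hlpos]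
    refine lt_of_le_of_lt (ciInf_le (hbdd 2) ⟨1 - q, by linarith, by linarith⟩) ?_
    simp only [sub_sub_cancel]
    exact hup
  have s2' : 0 ≤ size (dil (ind l S) 2) := by
    rw [size_dil 2 l hlpos]
    exact Real.iInf_nonneg (fun p => FF_nonneg 2 l S _)
  -- size of α
  have hsz : 1 < size (ind l S) := by
    have h1 : (1 : ℝ) < l * S.card := by
      have h5 : ((S ×ˢ S).card : ℝ) = S.card * S.card := by
        rw [Finset.card_product]; push_cast; ring
      rw [h5] at hlS
      by_contra hcon
      push Not at hcon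
      have h6 : 0 < l * S.card := by positivity
      nlinarith
    refine lt_of_lt_of_le h1 ?_
    unfold size
    refine le_ciInf (fun p => ?_)
    rw [finsum_eq_sum_of_support_subset (s := S)]
    · have h2 : ∀ n ∈ S, (ind l S n) ^ (p : ℝ) = l ^ (p : ℝ) := by
        intro n hn
        unfold ind; rw [if_pos hn]
      rw [Finset.sum_congr rfl h2, Finset.sum_const, nsmul_eq_mul, mul_comm]
      refine mul_le_mul_of_nonneg_left ?_ (Nat.cast_nonneg _)
      calc l = l ^ (1 : ℝ) := (Real.rpow_one l).symm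
        _ ≤ l ^ (p : ℝ) := Real.rpow_le_rpow_of_exponent_ge hlpos hl1 p.2.2.le
    · intro n hn
      rw [Function.mem_support] at hn
      by_contra hcon
      apply hn
      unfold ind
      rw [if_neg (fun h => hcon (Finset.mem_coe.2 h)), Real.zero_rpow p.2.1.ne']
  have hlog : 0 < Real.log (size (ind l S)) := Real.log_pos hsz
  have hfs : IsFractionalSet (ind l S) := by
    refine ⟨⟨fun n => ?_, ?_⟩, fun n => ?_⟩
    · unfold ind; split_ifs <;> linarith
    · refine Set.Finite.subset S.finite_toSet (fun n hn => ?_)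
      rw [Function.mem_support] at hn
      by_contra hcon
      apply hn
      unfold ind
      rw [if_neg (fun h => hcon (Finset.mem_coe.2 h))]
    · unfold ind; split_ifs <;> linarith
  have hlt : Real.log (size (dil (ind l S) 2)) < Real.log (size (dil (ind l S) 1)) := by
    have h1 : (1 : ℝ) < size (dil (ind l S) 1) := by linarith
    rcases le_or_gt (size (dil (ind l S) 2)) 1 with h2 | h2
    · exact lt_of_le_of_lt (Real.log_nonpos s2' h2) (Real.log_pos h1)
    · exact Real.log_lt_log (by linarith) (by linarith)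
  set a1 := Real.log (size (dil (ind l S) 1)) / Real.log (size (ind l S)) with ha1
  set a2 := Real.log (size (dil (ind l S) 2)) / Real.log (size (ind l S)) with ha2
  have ha : a2 < a1 := by
    rw [ha1, ha2]
    exact div_lt_div_of_pos_right hlt hlog
  obtain ⟨T, hT, hTk⟩ := result (ind l S) hfs hsz 2 (by norm_num) ((a1 - a2) / 2) (by linarith)
  have k1 := hTk 1 (by norm_num) (by norm_num)
  have k2 := hTk 2 (by norm_num) (by norm_num)
  rw [← ha1] at k1
  rw [← ha2] at k2
  have m1 := (abs_lt.1 k1)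
  have m2 := (abs_lt.1 k2)
  have hTlog : 0 < Real.log T.card := Real.log_pos (by exact_mod_cast hT)
  have hlt2 : Real.log (sumDil T 2).card / Real.log T.card <
      Real.log (sumDil T 1).card / Real.log T.card := by linarith
  have hlt3 : Real.log (sumDil T 2).card < Real.log (sumDil T 1).card := by
    rw [div_lt_div_iff_of_pos_right hTlog] at hlt2
    exact hlt2
  have hTne : T.Nonempty := Finset.card_pos.1 (by omega)
  refine ⟨T, hTne, ?_⟩
  by_contra hcon
  push Not at hcon
  have hpos : 0 < (sumDil T 1).card := by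
    unfold sumDil
    exact Finset.card_pos.2 (Finset.Nonempty.image (Finset.Nonempty.product hTne hTne) _)
  have : Real.log (sumDil T 1).card ≤ Real.log (sumDil T 2).card :=
    Real.log_le_log (by exact_mod_cast hpos) (by exact_mod_cast hcon)
  linarith

end Pool.Agent.N766.FD
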